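import Mathlib

set_option autoImplicit false

namespace Pool.Agent.H19.CorsonG

open Set Filter Topology Cardinal

section hull

variable {W : Type}

def Cl (T : Finset W → Set W) (N : Set W) : Prop := ∀ t : Finset W, (t : Set W) ⊆ N → T t ⊆ N

def hull (T : Finset W → Set W) (S : Set W) : Set W := ⋂₀ {N | Cl T N ∧ S ⊆ N}

variable {T : Finset W → Set W} {S N : Set W}

theorem hull_cl : Cl T (hull T S) := by
  intro t ht a ha N hN
  exact hN.1 t (ht.trans (Set.sInter_subset_of_mem hN)) ha

theorem sub_hull : S ⊆ hull T S := fun a ha N hN => hN.2 ha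

theorem hull_min (hN : Cl T N) (h : S ⊆ N) : hull T S ⊆ N := Set.sInter_subset_of_mem ⟨hN, h⟩

theorem Cl.inter {N' : Set W} (h : Cl T N) (h' : Cl T N') : Cl T (N ∩ N') := fun t ht =>
  Set.subset_inter (h t (ht.trans Set.inter_subset_left)) (h' t (ht.trans Set.inter_subset_right))

theorem hull_card (hT : ∀ t, (T t).Countable) (κ : Cardinal.{0}) (hκ : ℵ₀ ≤ κ) (hS : #S ≤ κ) :
    #(hull T S) ≤ κ := by
  classical
  let step : Set W → Set W := fun s => s ∪ ⋃ t : Finset s, T (t.map (Function.Embedding.subtype (· ∈ s)))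
  have hstep : ∀ s : Set W, #s ≤ κ → #(step s) ≤ κ := by
    intro s hs
    refine (Cardinal.mk_union_le _ _).trans (Cardinal.add_le_of_le hκ hs ?_)
    refine (Cardinal.mk_iUnion_le _).trans ?_
    have h1 : #(Finset s) ≤ κ := by
      rcases finite_or_infinite s with hf | hi
      · exact (Cardinal.lt_aleph0_of_finite _).le.trans hκ
      · rw [Cardinal.mk_finset_of_infinite]; exact hs
    have h2 : (⨆ t : Finset s, #(T (t.map (Function.Embedding.subtype (· ∈ s))))) ≤ κ := by
      apply ciSup_le'
      intro t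
      exact (Cardinal.le_aleph0_iff_set_countable.2 (hT _)).trans hκ
    calc _ ≤ κ * κ := mul_le_mul' h1 h2
      _ = κ := Cardinal.mul_eq_self hκ
  let q : ℕ → Set W := fun n => step^[n] S
  have hq : ∀ n, q (n+1) = step (q n) := fun n => Function.iterate_succ_apply' step n S
  have hqc : ∀ n, #(q n) ≤ κ := by
    intro n
    induction n with
    | zero => exact hS
    | succ n ih => rw [hq]; exact hstep _ ih
  have hqm : Monotone q := monotone_nat_of_le_succ fun n => by
    rw [hq]; exact Set.subset_union_left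
  have hcl : Cl T (⋃ n, q n) := by
    intro t ht
    have : ∃ n, (t : Set W) ⊆ q n := by
      have hex : ∀ a ∈ t, ∃ n, a ∈ q n := fun a ha => Set.mem_iUnion.mp (ht ha)
      choose! m hm using hex
      exact ⟨t.sup m, fun a ha => hqm (Finset.le_sup ha) (hm a ha)⟩
    obtain ⟨n, hn⟩ := this
    refine Set.Subset.trans ?_ (Set.subset_iUnion q (n+1))
    rw [hq]
    refine Set.subset_union_of_subset_right ?_ _
    have h1 : t = (t.subtype (· ∈ q n)).map (Function.Embedding.subtype (· ∈ q n)) :=
      (Finset.subtype_map_of_mem (fun x hx => hn hx)).symm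
    conv_lhs => rw [h1]
    exact Set.subset_iUnion (fun t : Finset (q n) => T (t.map (Function.Embedding.subtype (· ∈ q n)))) _
  have h1 : hull T S ⊆ ⋃ n, q n := hull_min hcl (Set.subset_iUnion q 0)
  refine (Cardinal.mk_le_mk_of_subset h1).trans ?_
  refine (Cardinal.mk_iUnion_le _).trans ?_
  have h2 : (⨆ n : ℕ, #(q n)) ≤ κ := ciSup_le' hqc
  calc #ℕ * (⨆ n : ℕ, #(q n)) ≤ κ * κ := mul_le_mul' (by rw [Cardinal.mk_nat]; exact hκ) h2
    _ = κ := Cardinal.mul_eq_self hκ

theorem cl_union {J : Type} [LinearOrder J] (P0 : Set W) (P : J → Set W) (I : Set J)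
    (h0 : Cl T P0) (hP : ∀ β, Cl T (P β)) (h0P : ∀ β, P0 ⊆ P β) (hm : Monotone P) :
    Cl T (P0 ∪ ⋃ β ∈ I, P β) := by
  classical
  intro t ht
  have key : ∀ t : Finset W, (t : Set W) ⊆ P0 ∪ ⋃ β ∈ I, P β → (t : Set W) ⊆ P0 ∨ ∃ β ∈ I, (t : Set W) ⊆ P β := by
    intro t
    induction t using Finset.induction_on with
    | empty => intro _; left; simp
    | insert a t _ ih =>
      intro h
      rw [Finset.coe_insert, Set.insert_subset_iff] at h
      rw [Finset.coe_insert]
      rcases ih h.2 with h1 | ⟨β, hβ, h1⟩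
      · rcases h.1 with h2 | h2
        · left; exact Set.insert_subset h2 h1
        · obtain ⟨γ, hγ, h3⟩ := Set.mem_iUnion₂.1 h2
          right; exact ⟨γ, hγ, Set.insert_subset h3 (h1.trans (h0P γ))⟩
      · right
        rcases h.1 with h2 | h2
        · exact ⟨β, hβ, Set.insert_subset (h0P β h2) h1⟩
        · obtain ⟨γ, hγ, h3⟩ := Set.mem_iUnion₂.1 h2
          rcases le_total β γ with h4 | h4
          · exact ⟨γ, hγ, Set.insert_subset h3 (h1.trans (hm h4))⟩
          · exact ⟨β, hβ, Set.insert_subset (hm h4 h3) h1⟩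
  rcases key t ht with h1 | ⟨β, hβ, h1⟩
  · exact (h0 t h1).trans Set.subset_union_left
  · refine (hP β t h1).trans (Set.subset_union_of_subset_right ?_ _)
    exact Set.subset_biUnion_of_mem (u := P) hβ

end hull

section main

variable {Z W L : Type} [TopologicalSpace Z] [CompactSpace Z] [T2Space Z]

def ZN (zz : Z → W) (N : Set W) : Set Z := closure {f | zz f ∈ N}

theorem ZN_mono (zz : Z → W) {N N' : Set W} (h : N ⊆ N') : ZN zz N ⊆ ZN zz N' :=
  closure_mono fun _ hf => h hf

/-- the abstract embedding theorem -/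
theorem corson (T : Finset W → Set W) (hT : ∀ t, (T t).Countable) (zz : Z → W) (ll : L → W)
    (φ : L → Z → ℝ) (hφ : ∀ l, Continuous (φ l))
    (hll : Function.Injective ll)
    (A1 : ∀ N, Cl T N → ∀ f ∈ ZN zz N, ∀ f' ∈ ZN zz N, (∀ l, ll l ∈ N → φ l f = φ l f') → f = f')
    (A2 : ∀ N, Cl T N → ∀ z, ∃ r ∈ ZN zz N, ∀ l, ll l ∈ N → φ l r = φ l z)
    (A3 : ∀ N, Cl T N → ∀ f ∈ ZN zz N, ∃ N' ⊆ N, Cl T N' ∧ N'.Countable ∧ f ∈ ZN zz N') :
    ∃ (Γ : Type) (e : Z → (Γ → ℝ)), IsEmbedding e ∧ ∀ z, (Function.support (e z)).Countable := by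
  classical
  choose r hr1 hr2 using A2
  -- continuity of the retractions
  have hrc : ∀ N (hN : Cl T N), Continuous (r N hN) := by
    intro N hN
    rw [continuous_iff_isClosed]
    intro C hC
    let Φ : Z → ({l : L // ll l ∈ N} → ℝ) := fun z l => φ l.1 z
    have hΦ : Continuous Φ := continuous_pi fun l => hφ l.1
    have h1 : (r N hN) ⁻¹' C = Φ ⁻¹' (Φ '' (C ∩ ZN zz N)) := by
      ext z
      constructor
      · intro hz
        exact ⟨r N hN z, ⟨hz, hr1 N hN z⟩, funext fun l => hr2 N hN z l.1 l.2⟩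
      · rintro ⟨f, ⟨hfC, hfN⟩, hf⟩
        have : r N hN z = f := A1 N hN _ (hr1 N hN z) _ hfN fun l hl => by
          rw [hr2 N hN z l hl]
          exact (congrFun hf ⟨l, hl⟩).symm
        show r N hN z ∈ C
        rw [this]
        exact hfC
    rw [h1]
    exact (((hC.inter isClosed_closure).isCompact.image hΦ).isClosed).preimage hΦ
  have hrid : ∀ N (hN : Cl T N), ∀ f ∈ ZN zz N, r N hN f = f := fun N hN f hf =>
    A1 N hN _ (hr1 N hN f) _ hf fun l hl => hr2 N hN f l hl
  have hrr : ∀ N (hN : Cl T N) N' (hN' : Cl T N'), N ⊆ N' → ∀ z, r N hN (r N' hN' z) = r N hN z := by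
    intro N hN N' hN' hsub z
    refine A1 N hN _ (hr1 N hN _) _ (hr1 N hN _) fun l hl => ?_
    rw [hr2 N hN _ l hl, hr2 N hN _ l hl, hr2 N' hN' _ l (hsub hl)]
  -- the induction
  have main : ∀ κ : Cardinal.{0}, ∀ N : Set W, #N = κ → Cl T N →
      ∃ (Γ : Type) (e : Z → (Γ → ℝ)), Continuous e ∧ (∀ z, (Function.support (e z)).Countable) ∧
        Set.InjOn e (ZN zz N) := by
    intro κ
    induction κ using WellFoundedLT.induction with
    | ind κ ih =>
    intro N hNκ hN
    by_cases hcount : #N ≤ ℵ₀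
    · -- countable case
      refine ⟨{l : L // ll l ∈ N}, fun z l => φ l.1 z, continuous_pi fun l => hφ l.1, ?_, ?_⟩
      · intro z
        have : Countable N := Cardinal.mk_le_aleph0_iff.1 hcount
        have : Countable {l : L // ll l ∈ N} := by
          refine Function.Injective.countable (f := fun l : {l : L // ll l ∈ N} => (⟨ll l.1, l.2⟩ : N)) ?_
          intro a b h
          exact Subtype.ext (hll (congrArg Subtype.val h))
        exact Set.to_countable _
      · intro f hf f' hf' h
        exact A1 N hN f hf f' hf' fun l hl => congrFun h ⟨l, hl⟩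
    · push Not at hcount
      have hκ : ℵ₀ < κ := hNκ ▸ hcount
      let J := κ.ord.ToType
      have hJ : #J = #N := by rw [hNκ]; exact Cardinal.mk_ord_toType κ
      obtain ⟨w⟩ : Nonempty (J ≃ N) := Cardinal.eq.1 hJ
      have hIio : ∀ α : J, #(Set.Iio α) < κ := fun α => Cardinal.mk_Iio_ord_toType α
      have hIic : ∀ α : J, #(Set.Iic α) < κ := by
        intro α
        have h1 : Set.Iic α = insert α (Set.Iio α) := by
          ext x; simp [le_iff_eq_or_lt]
        rw [h1]
        refine (Cardinal.mk_insert_le).trans_lt ?_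
        exact Cardinal.add_lt_of_lt hκ.le (hIio α) (Cardinal.one_lt_aleph0.trans hκ)
      let wv : J → W := fun α => (w α).1
      let Nlt : J → Set W := fun α => hull T (wv '' Set.Iio α)
      let Nle : J → Set W := fun α => hull T (wv '' Set.Iic α)
      let N0 : Set W := hull T (∅ : Set W)
      have cNlt : ∀ α, Cl T (Nlt α) := fun α => hull_cl
      have cNle : ∀ α, Cl T (Nle α) := fun α => hull_cl
      have cN0 : Cl T N0 := hull_cl
      have hN0 : ∀ S : Set W, N0 ⊆ hull T S := fun S => hull_min hull_cl (Set.empty_subset _)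
      have hNleN : ∀ α, Nle α ⊆ N := fun α => hull_min hN (by rintro _ ⟨β, _, rfl⟩; exact (w β).2)
      have hmono : Monotone Nle := fun α β h => hull_min hull_cl
        ((Set.image_mono (Set.Iic_subset_Iic.2 h)).trans sub_hull)
      have hle_lt : ∀ α β, α < β → Nle α ⊆ Nlt β := fun α β h => hull_min hull_cl
        ((Set.image_mono (Set.Iic_subset_Iio.2 h)).trans sub_hull)
      have hlt_le : ∀ α, Nlt α ⊆ Nle α := fun α => hull_min hull_cl
        ((Set.image_mono Set.Iio_subset_Iic_self).trans sub_hull)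
      have hself : ∀ α, wv α ∈ Nle α := fun α => sub_hull ⟨α, Set.mem_Iic.2 le_rfl, rfl⟩
      have hsegU : ∀ I : Set J, hull T (wv '' I) ⊆ N0 ∪ ⋃ β ∈ I, Nle β := by
        intro I
        refine hull_min (cl_union N0 Nle I cN0 cNle (fun β => hN0 _) hmono) ?_
        rintro _ ⟨β, hβ, rfl⟩
        exact Or.inr (Set.mem_iUnion₂.2 ⟨β, hβ, hself β⟩)
      -- good embeddings
      have hcard : ∀ α, #(Nle α) < κ := by
        intro α
        have h1 : #(Nle α) ≤ max ℵ₀ (#(Set.Iic α)) :=
          hull_card hT _ (le_max_left _ _) (Cardinal.mk_image_le.trans (le_max_right _ _))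
        exact h1.trans_lt (max_lt hκ (hIic α))
      have hcard0 : #N0 < κ := by
        have h1 : #N0 ≤ ℵ₀ := hull_card hT _ le_rfl (by simp)
        exact h1.trans_lt hκ
      choose Γ e he1 he2 he3 using fun α => ih _ (hcard α) (Nle α) rfl (cNle α)
      obtain ⟨Γ0, e0, h01, h02, h03⟩ := ih _ hcard0 N0 rfl cN0
      -- the change set
      have hA : ∀ z, {α : J | r (Nle α) (cNle α) z ≠ r (Nlt α) (cNlt α) z}.Countable := by
        intro z
        by_contra hunc
        set A := {α : J | r (Nle α) (cNle α) z ≠ r (Nlt α) (cNlt α) z} with hAdef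
        obtain ⟨I, hI1, hI2, hI3⟩ : ∃ I : Set J, IsLowerSet I ∧ ¬ (A ∩ I).Countable ∧
            ∀ β ∈ I, (A ∩ Set.Iio β).Countable := by
          by_cases h : ∃ δ : J, ¬ (A ∩ Set.Iio δ).Countable
          · obtain ⟨δ, hδ, hmin⟩ := WellFounded.has_min (wellFounded_lt (α := J))
              {δ : J | ¬ (A ∩ Set.Iio δ).Countable} h
            refine ⟨Set.Iio δ, isLowerSet_Iio δ, hδ, fun β hβ => ?_⟩
            by_contra hc
            exact hmin β hc hβ
          · push Not at h
            refine ⟨Set.univ, isLowerSet_univ, ?_, fun β _ => h β⟩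
            rw [Set.inter_univ]
            exact hunc
        let NI : Set W := hull T (wv '' I)
        have cNI : Cl T NI := hull_cl
        obtain ⟨N', hN'I, cN', hN'c, hfN'⟩ := A3 NI cNI (r NI cNI z) (hr1 _ _ _)
        have hcase : ∀ a : N', ∃ β : J, a.1 ∈ N0 ∨ (β ∈ I ∧ a.1 ∈ Nle β) := by
          intro a
          have hne : Nonempty J := by
            rw [← Cardinal.mk_ne_zero_iff, hJ, hNκ]
            exact (Cardinal.aleph0_pos.trans hκ).ne'
          rcases hsegU I (hN'I a.2) with h | h
          · exact ⟨Classical.arbitrary J, Or.inl h⟩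
          · obtain ⟨β, hβ, h⟩ := Set.mem_iUnion₂.1 h
            exact ⟨β, Or.inr ⟨hβ, h⟩⟩
        choose β hβ using hcase
        have : Countable N' := hN'c.to_subtype
        have hcov : (⋃ a : N', (if β a ∈ I then A ∩ Set.Iic (β a) else ∅)).Countable := by
          apply Set.countable_iUnion
          intro a
          split_ifs with h
          · have h1 : A ∩ Set.Iic (β a) ⊆ insert (β a) (A ∩ Set.Iio (β a)) := by
              rintro x ⟨hx, hx2⟩
              rcases (Set.mem_Iic.1 hx2).eq_or_lt with h2 | h2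
              · left; exact h2
              · right; exact ⟨hx, h2⟩
            exact ((hI3 _ h).insert _).mono h1
          · exact Set.countable_empty
        obtain ⟨α, ⟨hαA, hαI⟩, hαn⟩ : ∃ α ∈ A ∩ I, α ∉ ⋃ a : N', (if β a ∈ I then A ∩ Set.Iic (β a) else ∅) := by
          by_contra hc
          push Not at hc
          exact hI2 (hcov.mono hc)
        have hN'lt : N' ⊆ Nlt α := by
          intro a ha
          rcases hβ ⟨a, ha⟩ with h | ⟨h1, h2⟩
          · exact hN0 _ h
          · refine hle_lt (β ⟨a, ha⟩) α ?_ h2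
            by_contra hc
            apply hαn
            refine Set.mem_iUnion.2 ⟨⟨a, ha⟩, ?_⟩
            rw [if_pos h1]
            exact ⟨hαA, not_lt.1 hc⟩
        have hsub1 : Nle α ⊆ NI := hull_min hull_cl (by
          rintro _ ⟨γ, hγ, rfl⟩
          exact sub_hull ⟨γ, hI1 hγ hαI, rfl⟩)
        have hsub2 : Nlt α ⊆ NI := (hlt_le α).trans hsub1
        apply hαA
        rw [← hrr (Nle α) (cNle α) NI cNI hsub1 z, ← hrr (Nlt α) (cNlt α) NI cNI hsub2 z]
        rw [hrid _ _ _ (ZN_mono zz hN'lt hfN'), hrid _ _ _ (ZN_mono zz (hN'lt.trans (hlt_le α)) hfN')]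
      refine ⟨Γ0 ⊕ (Σ α, Γ α), fun z => Sum.elim (fun t => e0 (r N0 cN0 z) t)
        (fun q => e q.1 (r (Nle q.1) (cNle q.1) z) q.2 - e q.1 (r (Nlt q.1) (cNlt q.1) z) q.2), ?_, ?_, ?_⟩
      · apply continuous_pi
        rintro (t | ⟨α, t⟩)
        · exact (continuous_apply t).comp (h01.comp (hrc _ _))
        · exact ((continuous_apply t).comp ((he1 α).comp (hrc _ _))).sub
            ((continuous_apply t).comp ((he1 α).comp (hrc _ _)))
      · intro z
        have h1 : (Sum.inl '' Function.support (e0 (r N0 cN0 z)) ∪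
            ⋃ α ∈ {α : J | r (Nle α) (cNle α) z ≠ r (Nlt α) (cNlt α) z},
              (fun t : Γ α => (Sum.inr ⟨α, t⟩ : Γ0 ⊕ (Σ α, Γ α))) ''
                (Function.support (e α (r (Nle α) (cNle α) z)) ∪ Function.support (e α (r (Nlt α) (cNlt α) z)))).Countable := by
          refine ((h02 _).image _).union ?_
          exact (hA z).biUnion fun α _ => (((he2 α _).union (he2 α _)).image _)
        refine h1.mono ?_
        rintro (t | ⟨α, t⟩) ht
        · left; exact ⟨t, ht, rfl⟩
        · right
          have ht' : e α (r (Nle α) (cNle α) z) t - e α (r (Nlt α) (cNlt α) z) t ≠ 0 := ht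
          refine Set.mem_iUnion₂.2 ⟨α, ?_, ⟨t, ?_, rfl⟩⟩
          · intro heq
            apply ht'
            rw [heq, sub_self]
          · by_contra hc
            rw [Set.mem_union, not_or, Function.mem_support, Function.mem_support, not_not, not_not] at hc
            apply ht'
            rw [hc.1, hc.2, sub_zero]
      · intro z hz z' hz' heq
        have hE0 : r N0 cN0 z = r N0 cN0 z' := by
          apply h03 (hr1 _ _ _) (hr1 _ _ _)
          funext t
          exact congrFun heq (Sum.inl t)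
        have hEα : ∀ α t, e α (r (Nle α) (cNle α) z) t - e α (r (Nlt α) (cNlt α) z) t =
            e α (r (Nle α) (cNle α) z') t - e α (r (Nlt α) (cNlt α) z') t := fun α t =>
          congrFun heq (Sum.inr ⟨α, t⟩)
        have hall : ∀ α, r (Nle α) (cNle α) z = r (Nle α) (cNle α) z' := by
          intro α
          induction α using WellFoundedLT.induction with
          | ind α ihα =>
          have h1 : r (Nlt α) (cNlt α) z = r (Nlt α) (cNlt α) z' := by
            refine A1 _ (cNlt α) _ (hr1 _ _ _) _ (hr1 _ _ _) fun l hl => ?_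
            rw [hr2 _ _ _ l hl, hr2 _ _ _ l hl]
            rcases hsegU (Set.Iio α) hl with h2 | h2
            · rw [← hr2 N0 cN0 z l h2, ← hr2 N0 cN0 z' l h2, hE0]
            · obtain ⟨β, hβ, h3⟩ := Set.mem_iUnion₂.1 h2
              rw [← hr2 (Nle β) (cNle β) z l h3, ← hr2 (Nle β) (cNle β) z' l h3, ihα β hβ]
          apply he3 α (hr1 _ _ _) (hr1 _ _ _)
          funext t
          have h2 := hEα α t
          rw [h1] at h2
          linarith
        refine A1 N hN z hz z' hz' fun l hl => ?_
        let α := w.symm ⟨ll l, hl⟩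
        have h1 : ll l ∈ Nle α := by
          have := hself α
          have h2 : wv α = ll l := by
            show (w (w.symm ⟨ll l, hl⟩)).1 = ll l
            rw [w.apply_symm_apply]
          rw [h2] at this
          exact this
        rw [← hr2 (Nle α) (cNle α) z l h1, ← hr2 (Nle α) (cNle α) z' l h1, hall]
  obtain ⟨Γ, e, h1, h2, h3⟩ := main _ Set.univ rfl (fun _ _ => Set.subset_univ _)
  refine ⟨Γ, e, ?_, h2⟩
  have hu : ZN zz (Set.univ : Set W) = Set.univ := by
    unfold ZN
    have : {f : Z | zz f ∈ (Set.univ : Set W)} = Set.univ := by ext; simp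
    rw [this, closure_univ]
  rw [hu, Set.injOn_univ] at h3
  exact (h1.isClosedEmbedding h3).isEmbedding

end main

end Pool.Agent.H19.CorsonG
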