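import Mathlib

set_option autoImplicit false

namespace Pool.Agent.H19.Gulko

open Set Filter Topology

abbrev B : Type := ℕ → Bool

/-- the index set -/
@[ext] structure Gam : Type where
  M : Set B
  m : B
  g : Set B
  hm : m ∈ M
  hg : ∀ p ∈ g, p ∉ M
  hf : ∀ k : ℕ, {p | p ∈ g ∧ ¬ ∀ j < k, p j = m j}.Finite

instance : Nonempty Gam := ⟨⟨Set.univ, fun _ => false, ∅, trivial, fun _ h => absurd h (Set.notMem_empty _), fun _ => by simp⟩⟩

noncomputable def lev (m p : B) : ℕ := PiNat.firstDiff m p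

theorem lev_ne (m p : B) (h : m ≠ p) : m (lev m p) ≠ p (lev m p) := PiNat.apply_firstDiff_ne h

theorem lev_le (m p : B) (h : m ≠ p) (l : ℕ) (hl : ∀ i < l, m i = p i) : l ≤ lev m p := by
  by_contra hlt
  exact lev_ne m p h (hl _ (not_le.mp hlt))

/-- admissible sets -/
def Adm (A : Set Gam) : Prop := ∃ (M : Set B) (p : B), (∀ γ ∈ A, γ.M = M ∧ p ∈ γ.g) ∧
  ∀ γ ∈ A, ∀ γ' ∈ A, γ ≠ γ' → lev γ.m p ≠ lev γ'.m p

theorem Adm.mono {A A' : Set Gam} (h : Adm A) (hA : A' ⊆ A) : Adm A' := by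
  obtain ⟨M, p, h1, h2⟩ := h
  exact ⟨M, p, fun γ hγ => h1 γ (hA hγ), fun γ hγ γ' hγ' => h2 γ (hA hγ) γ' (hA hγ')⟩

theorem inter_finite (γ γ' : Gam) (h : γ.m ≠ γ'.m) : (γ.g ∩ γ'.g).Finite := by
  apply ((γ.hf (lev γ.m γ'.m + 1)).union (γ'.hf (lev γ.m γ'.m + 1))).subset
  rintro p ⟨hp, hp'⟩
  by_cases h1 : ∀ j < lev γ.m γ'.m + 1, p j = γ.m j
  · right
    refine ⟨hp', fun h2 => ?_⟩
    have e1 := h1 _ (Nat.lt_succ_self (lev γ.m γ'.m))
    have e2 := h2 _ (Nat.lt_succ_self (lev γ.m γ'.m))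
    exact lev_ne _ _ h (e1.symm.trans e2)
  · left
    exact ⟨hp, h1⟩

/-- finite character -/
theorem adm_fin (A : Set Gam) (h : ∀ F : Finset Gam, (F : Set Gam) ⊆ A → Adm (F : Set Gam)) : Adm A := by
  classical
  by_cases hsub : A.Subsingleton
  · have hfin : A.Finite := hsub.finite
    have := h hfin.toFinset (by simp)
    rwa [hfin.coe_toFinset] at this
  · rw [Set.not_subsingleton_iff] at hsub
    obtain ⟨γ0, h0, γ1, h1, hne⟩ := hsub
    have hne' : γ0.m ≠ γ1.m := by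
      obtain ⟨M, p, _, h3⟩ := h {γ0, γ1} (by
        intro γ hγ
        simp only [Finset.coe_insert, Finset.coe_singleton, Set.mem_insert_iff, Set.mem_singleton_iff] at hγ
        rcases hγ with rfl | rfl
        · exact h0
        · exact h1)
      intro heq
      exact h3 γ0 (by simp) γ1 (by simp) hne (by rw [heq])
    have hR := inter_finite γ0 γ1 hne'
    by_contra hcon
    have hbad : ∀ p : B, ∃ F : Finset Gam, (F : Set Gam) ⊆ A ∧ ¬ ((∀ γ ∈ F, γ.M = γ0.M ∧ p ∈ γ.g) ∧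
        ∀ γ ∈ F, ∀ γ' ∈ F, γ ≠ γ' → lev γ.m p ≠ lev γ'.m p) := by
      intro p
      by_contra hno
      push Not at hno
      apply hcon
      refine ⟨γ0.M, p, fun γ hγ => ?_, fun γ hγ γ' hγ' hn => ?_⟩
      · exact (hno {γ} (by simpa using hγ)).1 γ (by simp)
      · have hsub : (({γ, γ'} : Finset Gam) : Set Gam) ⊆ A := by
          intro z hz
          simp only [Finset.coe_insert, Finset.coe_singleton, Set.mem_insert_iff, Set.mem_singleton_iff] at hz
          rcases hz with rfl | rfl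
          · exact hγ
          · exact hγ'
        exact (hno {γ, γ'} hsub).2 γ (by simp) γ' (by simp) hn
    choose F hF1 hF2 using hbad
    let FF : Finset Gam := {γ0, γ1} ∪ hR.toFinset.biUnion F
    obtain ⟨M, p, h3, h4⟩ := h FF (by
      intro γ hγ
      simp only [FF, Finset.coe_union, Set.mem_union, Finset.mem_coe, Finset.mem_insert, Finset.mem_singleton,
        Finset.mem_biUnion] at hγ
      rcases hγ with (rfl | rfl) | ⟨p, _, hp⟩
      · exact h0
      · exact h1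
      · exact hF1 p hp)
    have e0 := h3 γ0 (by simp [FF])
    have e1 := h3 γ1 (by simp [FF])
    have hpR : p ∈ hR.toFinset := by
      rw [Set.Finite.mem_toFinset]
      exact ⟨e0.2, e1.2⟩
    have hsub : ∀ γ ∈ F p, γ ∈ (FF : Set Gam) := by
      intro γ hγ
      simp only [FF, Finset.coe_union, Set.mem_union, Finset.mem_coe, Finset.mem_biUnion]
      exact Or.inr ⟨p, hpR, hγ⟩
    apply hF2 p
    refine ⟨fun γ hγ => ⟨(h3 γ (hsub γ hγ)).1.trans e0.1.symm, (h3 γ (hsub γ hγ)).2⟩, ?_⟩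
    intro γ hγ γ' hγ'
    exact h4 γ (hsub γ hγ) γ' (hsub γ' hγ')

/-- the space -/
def XS : Set (Gam → Bool) := {x | Adm {γ | x γ = true}}

abbrev XX : Type := XS

theorem XS_closed : IsClosed XS := by
  apply isClosed_of_closure_subset
  intro x hx
  apply adm_fin
  intro F hF
  have hopen : IsOpen {x' : Gam → Bool | ∀ γ ∈ F, x' γ = x γ} := by
    have : {x' : Gam → Bool | ∀ γ ∈ F, x' γ = x γ} = ⋂ γ ∈ F, (fun x' : Gam → Bool => x' γ) ⁻¹' {x γ} := by
      ext; simp
    rw [this]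
    apply isOpen_biInter_finset
    intro γ _
    exact (isOpen_discrete _).preimage (continuous_apply γ)
  obtain ⟨x', hx', hx'S⟩ := mem_closure_iff.mp hx _ hopen (fun γ _ => rfl)
  have h1 : Adm {γ | x' γ = true} := hx'S
  apply h1.mono
  intro γ hγ
  show x' γ = true
  rw [hx' γ hγ]
  exact hF hγ

instance : CompactSpace XX := isCompact_iff_compactSpace.mp XS_closed.isCompact

open Classical in
/-- the point of the space attached to an admissible set -/
noncomputable def pt (A : Set Gam) (hA : Adm A) : XX := ⟨fun γ => decide (γ ∈ A), by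
  show Adm {γ | decide (γ ∈ A) = true}
  have : {γ | decide (γ ∈ A) = true} = A := by
    ext γ
    simp
  rw [this]
  exact hA⟩

theorem pt_apply (A : Set Gam) (hA : Adm A) (γ : Gam) : (pt A hA).1 γ = true ↔ γ ∈ A := by
  classical
  exact decide_eq_true_iff

/-- abstract consequence of the Lindelöf Σ property of `C_p(X)` -/
def QQ : Prop := ∃ (N : ℕ → Set Gam) (Φ : Gam → Set ℕ), (∀ γ n, n ∈ Φ γ → γ ∈ N n) ∧
  ∀ γ0 : Gam, ∀ A : Set Gam, Adm A → A.Infinite → ∃ n ∈ Φ γ0, (N n ∩ A).Finite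

theorem not_QQ : ¬ QQ := by
  classical
  rintro ⟨N, Φ, h1, h2⟩
  let bad : Set B → B → Finset ℕ → Prop := fun M m S => ∀ k : ℕ, ∃ p : B, p ∉ M ∧ (∀ j < k, p j = m j) ∧
    ∀ γ : Gam, γ.M = M → γ.m = m → p ∈ γ.g → ¬ ((S : Set ℕ) ⊆ Φ γ)
  have hsm : ∀ (M : Set B) (m : B), m ∈ M → ∃ γ : Gam, γ.M = M ∧ γ.m = m ∧
      ∀ S : Finset ℕ, (S : Set ℕ) ⊆ Φ γ → ¬ bad M m S := by
    intro M m hm
    have hP : ∀ S : Finset ℕ, ∃ p : B, bad M m S → p ∉ M ∧ (∀ j < Encodable.encode S, p j = m j) ∧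
        ∀ γ : Gam, γ.M = M → γ.m = m → p ∈ γ.g → ¬ ((S : Set ℕ) ⊆ Φ γ) := by
      intro S
      by_cases hb : bad M m S
      · obtain ⟨p, hp⟩ := hb (Encodable.encode S)
        exact ⟨p, fun _ => hp⟩
      · exact ⟨m, fun h => absurd h hb⟩
    choose P hP using hP
    let γ : Gam := ⟨M, m, {p | ∃ S, bad M m S ∧ p = P S}, hm, by
      rintro p ⟨S, hS, rfl⟩
      exact (hP S hS).1, by
      intro k
      have hfin : {S : Finset ℕ | Encodable.encode S < k}.Finite :=
        (Set.finite_Iio k).preimage (Encodable.encode_injective.injOn)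
      apply (hfin.image P).subset
      rintro p ⟨⟨S, hS, rfl⟩, hk⟩
      refine ⟨S, ?_, rfl⟩
      by_contra hlt
      exact hk (fun j hj => (hP S hS).2.1 j (lt_of_lt_of_le hj (not_lt.mp hlt)))⟩
    refine ⟨γ, rfl, rfl, fun S hS hb => ?_⟩
    exact (hP S hb).2.2 γ rfl rfl ⟨S, hb, rfl⟩ hS
  choose! γm hγM hγm hγb using hsm
  have hκ : ∀ (M : Set B) (m : B), m ∈ M → ∀ j : ℕ, ∃ k : ℕ, ∀ p : B, p ∉ M → (∀ i < k, p i = m i) →
      ∃ γ' : Gam, γ'.M = M ∧ γ'.m = m ∧ p ∈ γ'.g ∧ ∀ n < j, n ∈ Φ (γm M m) → n ∈ Φ γ' := by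
    intro M m hm j
    let S : Finset ℕ := (Finset.range j).filter (fun n => n ∈ Φ (γm M m))
    have hS : ¬ bad M m S := hγb M m hm S (by
      intro n hn
      exact (Finset.mem_filter.mp (Finset.mem_coe.mp hn)).2)
    have hS' : ∃ k : ℕ, ∀ p : B, p ∉ M → (∀ j < k, p j = m j) →
        ∃ γ : Gam, γ.M = M ∧ γ.m = m ∧ p ∈ γ.g ∧ (S : Set ℕ) ⊆ Φ γ := by
      by_contra hcon
      apply hS
      intro k
      by_contra hk
      apply hcon
      refine ⟨k, fun p hp hpk => ?_⟩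
      by_contra hγ
      apply hk
      refine ⟨p, hp, hpk, fun γ e1 e2 e3 e4 => hγ ⟨γ, e1, e2, e3, e4⟩⟩
    obtain ⟨k, hk⟩ := hS'
    refine ⟨k, fun p hp hpk => ?_⟩
    obtain ⟨γ', e1, e2, e3, e4⟩ := hk p hp hpk
    exact ⟨γ', e1, e2, e3, fun n hn hnΦ => e4 (Finset.mem_coe.mpr (Finset.mem_filter.mpr ⟨Finset.mem_range.mpr hn, hnΦ⟩))⟩
  choose! κ hκ using hκ
  -- codes
  let TT : Type := Σ l : ℕ, (Fin l → Bool × ℕ × Bool)
  let T : Set B → Set TT := fun M => {t | ∃ m ∈ M, ∀ i : Fin t.1, t.2 i = (decide ((i : ℕ) ∈ Φ (γm M m)), κ M m i, m i)}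
  let H : Set TT → Set B := fun S => {p | ∃ (γ0 : Gam) (q : ℕ → ℕ), ∀ l : ℕ,
    (⟨l, fun i => (decide ((i : ℕ) ∈ Φ γ0), q i, p i)⟩ : TT) ∈ S}
  have hHT : ∀ M, H (T M) = M := by
    intro M
    apply Set.Subset.antisymm
    · rintro p ⟨γ0, q, hq⟩
      by_contra hp
      have hstep : ∀ j L : ℕ, ∃ γ' : Gam, γ'.M = M ∧ p ∈ γ'.g ∧ L ≤ lev γ'.m p ∧ ∀ n < j, n ∈ Φ γ0 → n ∈ Φ γ' := by
        intro j L
        let l := max (j + 1) (max (q j) L)
        obtain ⟨m, hm, hl⟩ := hq l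
        have hl' : ∀ i < l, decide (i ∈ Φ γ0) = decide (i ∈ Φ (γm M m)) ∧ q i = κ M m i ∧ p i = m i := by
          intro i hi
          have := hl ⟨i, hi⟩
          simp only [Prod.mk.injEq] at this
          exact this
        have hjl : j < l := lt_of_lt_of_le (Nat.lt_succ_self j) (le_max_left _ _)
        obtain ⟨γ', e1, e2, e3, e4⟩ := hκ M m hm j p hp (by
          intro i hi
          rw [← (hl' j hjl).2.1] at hi
          exact (hl' i (lt_of_lt_of_le hi ((le_max_left _ _).trans (le_max_right _ _)))).2.2)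
        refine ⟨γ', e1, e3, ?_, ?_⟩
        · rw [e2]
          have hmp : m ≠ p := fun h => hp (h ▸ hm)
          exact ((le_max_right _ _).trans (le_max_right _ _)).trans
            (lev_le m p hmp l (fun i hi => (hl' i hi).2.2.symm))
        · intro n hn hnΦ
          apply e4 n hn
          have := (hl' n (hn.trans hjl)).1
          rw [decide_eq_decide] at this
          exact this.mp hnΦ
      choose G hG1 hG2 hG3 hG4 using hstep
      let sq : ℕ → Gam := fun n => Nat.rec (G 0 0) (fun n γ => G (n+1) (lev γ.m p + 1)) n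
      have hsq : ∀ n, ∃ L, sq n = G n L := by
        intro n
        cases n with
        | zero => exact ⟨0, rfl⟩
        | succ n => exact ⟨_, rfl⟩
      have hmono : StrictMono (fun n => lev (sq n).m p) := by
        apply strictMono_nat_of_lt_succ
        intro n
        exact Nat.lt_of_succ_le (hG3 (n+1) (lev (sq n).m p + 1))
      have hinj : Function.Injective sq := by
        intro a b hab
        apply hmono.injective
        show lev (sq a).m p = lev (sq b).m p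
        rw [hab]
      have hA : Adm (Set.range sq) := by
        refine ⟨M, p, ?_, ?_⟩
        · rintro _ ⟨n, rfl⟩
          obtain ⟨L, hL⟩ := hsq n
          rw [hL]
          exact ⟨hG1 _ _, hG2 _ _⟩
        · rintro _ ⟨a, rfl⟩ _ ⟨b, rfl⟩ hne heq
          exact hne (congrArg sq (hmono.injective heq))
      obtain ⟨n, hn, hfin⟩ := h2 γ0 (Set.range sq) hA (Set.infinite_range_of_injective hinj)
      have : (sq '' Set.Ioi n).Infinite := (Set.Ioi_infinite n).image hinj.injOn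
      apply this
      apply hfin.subset
      rintro _ ⟨k, hk, rfl⟩
      refine ⟨?_, ⟨k, rfl⟩⟩
      apply h1
      obtain ⟨L, hL⟩ := hsq k
      rw [hL]
      exact hG4 k L n hk hn
    · intro m hm
      exact ⟨γm M m, κ M m, fun l => ⟨m, hm, fun i => rfl⟩⟩
  have hTinj : Function.Injective T := by
    intro M M' h
    rw [← hHT M, ← hHT M', h]
  have hcard := Cardinal.mk_le_of_injective hTinj
  rw [Cardinal.mk_set, Cardinal.mk_set] at hcard
  have hB : Cardinal.mk B = Cardinal.continuum := by simp [B]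
  have hTT : Cardinal.mk TT ≤ Cardinal.aleph0 := Cardinal.mk_le_aleph0
  have h3 : (2 : Cardinal) ^ Cardinal.mk TT ≤ Cardinal.continuum := by
    rw [← Cardinal.two_power_aleph0]
    exact Cardinal.power_le_power_left two_ne_zero hTT
  rw [hB] at hcard
  exact absurd (hcard.trans h3) (not_le.mpr (Cardinal.cantor _))

end Pool.Agent.H19.Gulko
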