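import Mathlib

set_option autoImplicit false

namespace Pool.Agent.H19.Gulko

open Set Filter Topology

section LS

variable {K : Type} [TopologicalSpace K] [CompactSpace K] {G : Type} {ι : Type} [Countable ι]

/-- weakly σ-point-finite families -/
def WP (e : K → G → Bool) (W : ι → Set G) : Prop :=
  ∀ (x : K) (γ : G), ∃ n, γ ∈ W n ∧ {γ' | γ' ∈ W n ∧ e x γ' = true}.Finite

abbrev Idx (ι : Type) : Type := ℕ × ℕ × Σ k : ℕ, ((Fin k → Bool) → ℚ) × (Fin k → Finset ι)

/-- the network -/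
def EE (e : K → G → Bool) (W : ι → Set G) (a : Idx ι) : Set (K → ℝ) :=
  {f | (∀ x, |f x| ≤ (a.1 : ℝ)) ∧ ∃ γ : Fin a.2.2.1 → G, (∀ i, ∀ n ∈ a.2.2.2.2 i, γ i ∈ W n) ∧
    ∀ x, |f x - (a.2.2.2.1 (fun i => e x (γ i)) : ℝ)| ≤ 1 / ((a.2.1 : ℝ) + 1)}

theorem EE_compact (e : K → G → Bool) (W : ι → Set G) (a : Idx ι) : IsCompact (closure (EE e W a)) := by
  apply IsCompact.of_isClosed_subset (isCompact_univ_pi (fun x : K => isCompact_Icc (a := -(a.1 : ℝ)) (b := (a.1 : ℝ))))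
    isClosed_closure
  apply closure_minimal _ (isClosed_set_pi fun x _ => isClosed_Icc)
  intro f hf x _
  exact abs_le.mp (hf.1 x)

theorem mem_cl_iff' {X : Type} (A : Set (X → ℝ)) (F : X → ℝ) (hF : F ∈ closure A) (E : Finset X) (ε : ℝ)
    (hε : 0 < ε) : ∃ f ∈ A, ∀ x ∈ E, |f x - F x| < ε := by
  have hopen : IsOpen {G : X → ℝ | ∀ x ∈ E, |G x - F x| < ε} := by
    have : {G : X → ℝ | ∀ x ∈ E, |G x - F x| < ε} = ⋂ x ∈ E, {G : X → ℝ | |G x - F x| < ε} := by
      ext; simp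
    rw [this]
    apply isOpen_biInter_finset
    intro x _
    exact isOpen_lt (((continuous_apply x).sub continuous_const).abs) continuous_const
  obtain ⟨f, hG, hf⟩ := mem_closure_iff.mp hF _ hopen (by
    intro x _
    simpa using hε)
  exact ⟨f, hf, hG⟩

omit [Countable ι] in
theorem app1 (e : K → G → Bool) (he : ∀ γ, Continuous fun x => e x γ) (f : K → ℝ) (hf : Continuous f)
    (hfe : ∀ x x', (∀ γ, e x γ = e x' γ) → f x = f x') (ε : ℝ) (hε : 0 < ε) :
    ∃ E : Finset G, ∀ x x', (∀ γ ∈ E, e x γ = e x' γ) → |f x - f x'| < ε := by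
  have hC : IsCompact {q : K × K | ε ≤ |f q.1 - f q.2|} :=
    (isClosed_le continuous_const (((hf.comp continuous_fst).sub (hf.comp continuous_snd)).abs)).isCompact
  have hO : ∀ γ : G, IsOpen {q : K × K | e q.1 γ ≠ e q.2 γ} := by
    intro γ
    have h1 : Continuous (fun q : K × K => (e q.1 γ, e q.2 γ)) :=
      ((he γ).comp continuous_fst).prodMk ((he γ).comp continuous_snd)
    exact (isOpen_discrete {b : Bool × Bool | b.1 ≠ b.2}).preimage h1
  obtain ⟨T, hT⟩ := hC.elim_finite_subcover _ hO (by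
    intro q hq
    by_contra hcon
    have h1 : ∀ γ, e q.1 γ = e q.2 γ := by
      intro γ
      by_contra h
      exact hcon (Set.mem_iUnion.mpr ⟨γ, h⟩)
    have h2 : ε ≤ |f q.1 - f q.2| := hq
    rw [hfe q.1 q.2 h1, sub_self, abs_zero] at h2
    exact absurd h2 (not_le.mpr hε))
  refine ⟨T, fun x x' hx => ?_⟩
  by_contra hlt
  have hmem : (x, x') ∈ {q : K × K | ε ≤ |f q.1 - f q.2|} := not_lt.mp hlt
  obtain ⟨γ, hγ, hne⟩ := Set.mem_iUnion₂.mp (hT hmem)
  exact hne (hx γ hγ)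

omit [Countable ι] in
theorem app2 (e : K → G → Bool) (he : ∀ γ, Continuous fun x => e x γ) (f : K → ℝ) (hf : Continuous f)
    (hfe : ∀ x x', (∀ γ, e x γ = e x' γ) → f x = f x') (m : ℕ) :
    ∃ (b k : ℕ) (u : (Fin k → Bool) → ℚ) (γ : Fin k → G), (∀ x, |f x| ≤ (b : ℝ)) ∧
      ∀ x, |f x - (u (fun i => e x (γ i)) : ℝ)| ≤ 1 / ((m : ℝ) + 1) := by
  classical
  have hpos : (0:ℝ) < 1 / ((m : ℝ) + 1) := by positivity
  obtain ⟨E, hE⟩ := app1 e he f hf hfe (1 / ((m : ℝ) + 1) / 2) (by positivity)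
  obtain ⟨b, hb⟩ : ∃ b : ℕ, ∀ x, |f x| ≤ (b : ℝ) := by
    obtain ⟨M, hM⟩ := (isCompact_range hf.abs).bddAbove
    obtain ⟨b, hb⟩ := exists_nat_ge M
    exact ⟨b, fun x => (hM ⟨x, rfl⟩).trans hb⟩
  let k := E.card
  let γ : Fin k → G := fun i => (E.equivFin.symm i).1
  have hu : ∀ v : Fin k → Bool, ∃ r : ℚ, ∀ x, (fun i => e x (γ i)) = v → |f x - (r : ℝ)| ≤ 1 / ((m : ℝ) + 1) := by
    intro v
    by_cases hv : ∃ x, (fun i => e x (γ i)) = v
    · obtain ⟨x0, hx0⟩ := hv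
      obtain ⟨r, hr1, hr2⟩ := exists_rat_btwn (show f x0 < f x0 + 1 / ((m : ℝ) + 1) / 2 by linarith)
      refine ⟨r, fun x hx => ?_⟩
      have h1 : |f x - f x0| < 1 / ((m : ℝ) + 1) / 2 := by
        apply hE
        intro g hg
        have h2 := congrFun (hx.trans hx0.symm) (E.equivFin ⟨g, hg⟩)
        simp only [γ, Equiv.symm_apply_apply] at h2
        exact h2
      rw [abs_lt] at h1
      rw [abs_le]
      constructor
      · linarith [h1.1, h1.2]
      · linarith [h1.1, h1.2]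
    · exact ⟨0, fun x hx => absurd ⟨x, hx⟩ hv⟩
  choose u hu using hu
  exact ⟨b, k, u, γ, hb, fun x => hu _ x rfl⟩

/-- the main closure property -/
theorem main_closure (e : K → G → Bool) (he : ∀ γ, Continuous fun x => e x γ) (W : ι → Set G)
    (hW : WP e W) (f : K → ℝ) (hf : Continuous f) (hfe : ∀ x x', (∀ γ, e x γ = e x' γ) → f x = f x')
    (h : K → ℝ) (hh : ∀ a : Idx ι, f ∈ EE e W a → h ∈ closure (EE e W a)) :
    Continuous h ∧ ∀ x x', (∀ γ, e x γ = e x' γ) → h x = h x' := by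
  classical
  have key : ∀ m : ℕ, ∃ R : K → ℝ, Continuous R ∧ (∀ x x', (∀ γ, e x γ = e x' γ) → R x = R x') ∧
      ∀ x, |h x - R x| ≤ 1 / ((m : ℝ) + 1) := by
    intro m
    obtain ⟨b, k, u, γ, hb, hu⟩ := app2 e he f hf hfe m
    let S : Finset ι → Fin k → Finset ι := fun T i => T.filter (fun n => γ i ∈ W n)
    have hmem : ∀ T : Finset ι, h ∈ closure (EE e W ((b, m, ⟨k, u, S T⟩) : Idx ι)) := by
      intro T
      apply hh
      exact ⟨hb, γ, fun i n hn => (Finset.mem_filter.mp hn).2, hu⟩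
    have hch : ∀ (D : Finset K) (T : Finset ι) (r : ℕ), ∃ γ' : Fin k → G,
        (∀ i, ∀ n ∈ T, γ i ∈ W n → γ' i ∈ W n) ∧
        ∀ x ∈ D, |h x - (u (fun i => e x (γ' i)) : ℝ)| ≤ 1 / ((m : ℝ) + 1) + 1 / ((r : ℝ) + 1) := by
      intro D T r
      obtain ⟨f', hf', hD⟩ := mem_cl_iff' _ h (hmem T) D (1 / ((r : ℝ) + 1)) (by positivity)
      obtain ⟨_, γ', hγ', hfu⟩ := hf'
      refine ⟨γ', fun i n hn hin => hγ' i n (Finset.mem_filter.mpr ⟨hn, hin⟩), fun x hx => ?_⟩
      have h1 := hfu x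
      have h2 := (hD x hx).le
      have h3 : |h x - (u (fun i => e x (γ' i)) : ℝ)| ≤ |h x - f' x| + |f' x - (u (fun i => e x (γ' i)) : ℝ)| :=
        abs_sub_le _ _ _
      rw [abs_sub_comm] at h2
      have h1' : |f' x - (u (fun i => e x (γ' i)) : ℝ)| ≤ 1 / ((m : ℝ) + 1) := h1
      linarith
    choose γ' hγ'1 hγ'2 using hch
    let J : Type := Finset K × Finset ι × ℕ
    let 𝒰 : Ultrafilter J := Ultrafilter.of atTop
    have hU : (𝒰 : Filter J) ≤ atTop := Ultrafilter.of_le _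
    have hev : ∀ j0 : J, ∀ᶠ j in (𝒰 : Filter J), j0 ≤ j := fun j0 => hU (eventually_ge_atTop j0)
    have hρ : ∀ i : Fin k, ∃ ρ : K → Bool, Continuous ρ ∧ (∀ x x', (∀ γ, e x γ = e x' γ) → ρ x = ρ x') ∧
        ∀ x, ∀ᶠ j in (𝒰 : Filter J), e x (γ' j.1 j.2.1 j.2.2 i) = ρ x := by
      intro i
      by_cases hcase : ∃ x, ∀ᶠ j in (𝒰 : Filter J), e x (γ' j.1 j.2.1 j.2.2 i) = true
      · obtain ⟨x, hx⟩ := hcase
        obtain ⟨n, hn, hfin⟩ := hW x (γ i)
        have h1 : ∀ᶠ j in (𝒰 : Filter J), γ' j.1 j.2.1 j.2.2 i ∈ {γ' | γ' ∈ W n ∧ e x γ' = true} := by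
          filter_upwards [hx, hev (∅, {n}, 0)] with j hj1 hj2
          refine ⟨?_, hj1⟩
          apply hγ'1 j.1 j.2.1 j.2.2 i n _ hn
          exact hj2.2.1 (Finset.mem_singleton_self n)
        have h2 : ∃ g ∈ {γ' | γ' ∈ W n ∧ e x γ' = true}, {j : J | γ' j.1 j.2.1 j.2.2 i = g} ∈ 𝒰 := by
          rw [← Ultrafilter.finite_biUnion_mem_iff hfin]
          apply Filter.mem_of_superset h1
          intro j hj
          exact Set.mem_iUnion₂.mpr ⟨_, hj, rfl⟩
        obtain ⟨g, _, hg⟩ := h2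
        refine ⟨fun x => e x g, he g, fun x x' hxx => hxx g, fun x => ?_⟩
        filter_upwards [hg] with j hj
        have hj' : γ' j.1 j.2.1 j.2.2 i = g := hj
        rw [hj']
      · push Not at hcase
        refine ⟨fun _ => false, continuous_const, fun _ _ _ => rfl, fun x => ?_⟩
        have h1 := hcase x
        have h2 : ∀ᶠ j in (𝒰 : Filter J), ¬ (e x (γ' j.1 j.2.1 j.2.2 i) = true) := h1
        filter_upwards [h2] with j hj
        simpa using hj
    choose ρ hρc hρe hρ using hρ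
    refine ⟨fun x => (u (fun i => ρ i x) : ℝ), ?_, ?_, ?_⟩
    · have h1 : Continuous (fun x => (fun i => ρ i x : Fin k → Bool)) := continuous_pi fun i => hρc i
      exact (continuous_of_discreteTopology (f := fun v : Fin k → Bool => (u v : ℝ))).comp h1
    · intro x x' hxx
      have : (fun i => ρ i x) = fun i => ρ i x' := funext fun i => hρe i x x' hxx
      show (u (fun i => ρ i x) : ℝ) = (u (fun i => ρ i x') : ℝ)
      rw [this]
    · intro x
      apply le_of_forall_pos_le_add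
      intro δ hδ
      obtain ⟨r, hr⟩ := exists_nat_one_div_lt hδ
      have h1 : ∀ᶠ j in (𝒰 : Filter J), ∀ i, e x (γ' j.1 j.2.1 j.2.2 i) = ρ i x :=
        Filter.eventually_all.mpr fun i => hρ i x
      obtain ⟨j, hj1, hj2⟩ := (h1.and (hev ({x}, ∅, r))).exists
      have h2 := hγ'2 j.1 j.2.1 j.2.2 x (hj2.1 (Finset.mem_singleton_self x))
      have h3 : (fun i => e x (γ' j.1 j.2.1 j.2.2 i)) = fun i => ρ i x := funext hj1
      rw [h3] at h2
      have h4 : (1:ℝ) / ((j.2.2 : ℝ) + 1) ≤ 1 / ((r : ℝ) + 1) := by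
        have : (r : ℝ) ≤ j.2.2 := by exact_mod_cast hj2.2.2
        gcongr
      linarith
  choose R hRc hRe hR using key
  constructor
  · apply continuous_of_uniform_approx_of_continuous
    intro v hv
    obtain ⟨ε, hε, hv'⟩ := Metric.mem_uniformity_dist.mp hv
    obtain ⟨m, hm⟩ := exists_nat_one_div_lt hε
    refine ⟨R m, hRc m, fun y => hv' ?_⟩
    rw [Real.dist_eq]
    exact lt_of_le_of_lt (hR m y) hm
  · intro x x' hxx
    by_contra hne
    have hpos : 0 < |h x - h x'| / 2 := by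
      have := abs_pos.mpr (sub_ne_zero.mpr hne)
      positivity
    obtain ⟨m, hm⟩ := exists_nat_one_div_lt hpos
    have h1 := hR m x
    have h2 := hR m x'
    rw [hRe m x x' hxx] at h1
    have h3 : |h x - h x'| ≤ |h x - R m x'| + |R m x' - h x'| := abs_sub_le _ _ _
    rw [abs_sub_comm] at h2
    linarith

omit [Countable ι] in
theorem exists_mem_EE (e : K → G → Bool) (he : ∀ γ, Continuous fun x => e x γ) (W : ι → Set G)
    (f : K → ℝ) (hf : Continuous f) (hfe : ∀ x x', (∀ γ, e x γ = e x' γ) → f x = f x') :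
    ∃ a : Idx ι, f ∈ EE e W a := by
  obtain ⟨b, k, u, γ, hb, hu⟩ := app2 e he f hf hfe 0
  exact ⟨(b, 0, ⟨k, u, fun _ => ∅⟩), hb, γ, fun i n hn => absurd hn (Finset.notMem_empty n), hu⟩

/-- Lindelöf Σ in the network form -/
theorem ls1 (e : K → G → Bool) (he : ∀ γ, Continuous fun x => e x γ) (W : ι → Set G)
    (hW : WP e W) (hinj : ∀ x x', (∀ γ, e x γ = e x' γ) → x = x') :
    ∃ (𝒞 𝒩 : Set (Set C(K, ℝ))), 𝒩.Countable ∧ ⋃₀ 𝒞 = Set.univ ∧
      ∀ C ∈ 𝒞,
        @IsCompact _ (TopologicalSpace.induced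
          (fun f : C(K, ℝ) => (⇑f : K → ℝ)) inferInstance) C ∧
        ∀ U : Set C(K, ℝ),
          @IsOpen _ (TopologicalSpace.induced
            (fun f : C(K, ℝ) => (⇑f : K → ℝ)) inferInstance) U →
          C ⊆ U → ∃ N ∈ 𝒩, C ⊆ N ∧ N ⊆ U := by
  classical
  let _ : TopologicalSpace C(K, ℝ) := TopologicalSpace.induced
            (fun f : C(K, ℝ) => (⇑f : K → ℝ)) inferInstance
  have hind : IsInducing (fun f : C(K, ℝ) => (⇑f : K → ℝ)) := ⟨rfl⟩
  have hfe : ∀ f : C(K, ℝ), ∀ x x', (∀ γ, e x γ = e x' γ) → f x = f x' := fun f x x' h => by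
    rw [hinj x x' h]
  let CC : C(K, ℝ) → Set C(K, ℝ) := fun f => {g | ∀ a : Idx ι, (⇑f : K → ℝ) ∈ EE e W a → (⇑g : K → ℝ) ∈ closure (EE e W a)}
  let NN : Finset (Idx ι) → Set C(K, ℝ) := fun S => {g | ∀ a ∈ S, (⇑g : K → ℝ) ∈ closure (EE e W a)}
  refine ⟨Set.range CC, Set.range NN, Set.countable_range NN, ?_, ?_⟩
  · apply Set.eq_univ_of_forall
    intro f
    exact ⟨CC f, ⟨f, rfl⟩, fun a ha => subset_closure ha⟩
  · rintro _ ⟨f, rfl⟩
    obtain ⟨a0, ha0⟩ := exists_mem_EE e he W f f.continuous (hfe f)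
    have himg : (fun g : C(K, ℝ) => (⇑g : K → ℝ)) '' CC f =
        ⋂ a ∈ {a : Idx ι | (⇑f : K → ℝ) ∈ EE e W a}, closure (EE e W a) := by
      ext h
      constructor
      · rintro ⟨g, hg, rfl⟩
        exact Set.mem_iInter₂.mpr (fun a ha => hg a ha)
      · intro hh
        have hh' : ∀ a : Idx ι, (⇑f : K → ℝ) ∈ EE e W a → h ∈ closure (EE e W a) :=
          fun a ha => Set.mem_iInter₂.mp hh a ha
        have hc := (main_closure e he W hW f f.continuous (hfe f) h hh').1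
        exact ⟨⟨h, hc⟩, hh', rfl⟩
    constructor
    · rw [hind.isCompact_iff, himg]
      apply IsCompact.of_isClosed_subset (EE_compact e W a0)
      · exact isClosed_biInter fun a _ => isClosed_closure
      · intro h hh
        exact Set.mem_iInter₂.mp hh a0 ha0
    · intro U hU hCU
      obtain ⟨U', hU', rfl⟩ := isOpen_induced_iff.mp hU
      have hs : IsCompact (closure (EE e W a0) ∩ U'ᶜ) := (EE_compact e W a0).inter_right hU'.isClosed_compl
      obtain ⟨v, hv⟩ := hs.elim_finite_subfamily_closed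
        (fun a : {a : Idx ι // (⇑f : K → ℝ) ∈ EE e W a} => closure (EE e W a.1))
        (fun a => isClosed_closure) (by
          rw [Set.eq_empty_iff_forall_notMem]
          rintro h ⟨⟨_, h2⟩, h3⟩
          have hh' : ∀ a : Idx ι, (⇑f : K → ℝ) ∈ EE e W a → h ∈ closure (EE e W a) :=
            fun a ha => Set.mem_iInter.mp h3 ⟨a, ha⟩
          have hc := (main_closure e he W hW f f.continuous (hfe f) h hh').1
          have h4 : (⟨h, hc⟩ : C(K, ℝ)) ∈ CC f := hh'
          exact h2 (hCU h4))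
      refine ⟨NN (insert a0 (v.image Subtype.val)), ⟨_, rfl⟩, ?_, ?_⟩
      · intro g hg a ha
        rcases Finset.mem_insert.mp ha with rfl | ha
        · exact hg _ ha0
        · obtain ⟨a', _, rfl⟩ := Finset.mem_image.mp ha
          exact hg a'.1 a'.2
      · intro g hg
        by_contra hgU
        have : (⇑g : K → ℝ) ∈ (closure (EE e W a0) ∩ U'ᶜ) ∩ ⋂ i ∈ v, closure (EE e W i.1) := by
          refine ⟨⟨hg a0 (Finset.mem_insert_self _ _), hgU⟩, ?_⟩
          exact Set.mem_iInter₂.mpr (fun i hi => hg i.1 (Finset.mem_insert_of_mem (Finset.mem_image_of_mem _ hi)))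
        rw [hv] at this
        exact this

end LS

end Pool.Agent.H19.Gulko
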