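import Mathlib
import Pool.Agent.H19.GulkoCore
import Pool.Agent.H19.GulkoLS

set_option autoImplicit false

namespace Pool.Agent.H19.Gulko

open Set Filter Topology

abbrev WI : Type := Σ k : ℕ, ((Fin k → Bool) × (Fin k → Bool))

abbrev G0 (I0 : Set (Set B)) : Type := {γ : Gam // γ.M ∈ I0}

def WW (I0 : Set (Set B)) (j : Set B → B) : WI → Set (G0 I0) := fun a =>
  {γ | (∀ i : Fin a.1, j γ.1.M i = a.2.1 i) ∧ ∀ i : Fin a.1, γ.1.m i = a.2.2 i}

theorem WW_adm (I0 : Set (Set B)) (j : Set B → B) (hj : Set.InjOn j I0) (A : Set Gam) (hA : Adm A)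
    (γ : G0 I0) : ∃ a, γ ∈ WW I0 j a ∧ {γ' | γ' ∈ WW I0 j a ∧ γ'.1 ∈ A}.Finite := by
  have hmem : ∀ k : ℕ, γ ∈ WW I0 j ⟨k, (fun i => j γ.1.M i, fun i => γ.1.m i)⟩ := fun k =>
    ⟨fun i => rfl, fun i => rfl⟩
  obtain ⟨M, p, h1, h2⟩ := hA
  by_cases hM : M ∈ I0
  · by_cases hγM : γ.1.M = M
    · by_cases hne : A.Nonempty
      · obtain ⟨γ1, hγ1⟩ := hne
        have hp : p ∉ M := by
          have := γ1.hg p (h1 γ1 hγ1).2
          rwa [(h1 γ1 hγ1).1] at this
        have hmp : γ.1.m ≠ p := by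
          intro h
          apply hp
          rw [← h, ← hγM]
          exact γ.1.hm
        refine ⟨_, hmem (lev γ.1.m p + 1), ?_⟩
        apply Set.Finite.of_finite_image (f := fun γ' : G0 I0 => lev γ'.1.m p)
        · apply (Set.finite_Iic (lev γ.1.m p)).subset
          rintro _ ⟨γ', ⟨hγ', _⟩, rfl⟩
          show lev γ'.1.m p ≤ lev γ.1.m p
          by_contra hlt
          have e1 : γ'.1.m (lev γ.1.m p) = p (lev γ.1.m p) :=
            PiNat.apply_eq_of_lt_firstDiff (not_le.mp hlt)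
          have e2 : γ'.1.m (lev γ.1.m p) = γ.1.m (lev γ.1.m p) := hγ'.2 ⟨lev γ.1.m p, Nat.lt_succ_self _⟩
          exact lev_ne _ _ hmp (e2.symm.trans e1)
        · rintro a ⟨_, ha⟩ b ⟨_, hb⟩ hab
          by_contra hne
          exact h2 a.1 ha b.1 hb (fun h => hne (Subtype.ext h)) hab
      · refine ⟨_, hmem 0, ?_⟩
        rw [Set.not_nonempty_iff_eq_empty] at hne
        have : {γ' | γ' ∈ WW I0 j ⟨0, (fun i => j γ.1.M i, fun i => γ.1.m i)⟩ ∧ γ'.1 ∈ A} = ∅ := by
          ext z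
          simp [hne]
        rw [this]
        exact Set.finite_empty
    · have hjne : j γ.1.M ≠ j M := fun h => hγM (hj γ.2 hM h)
      refine ⟨_, hmem (lev (j γ.1.M) (j M) + 1), ?_⟩
      have : {γ' | γ' ∈ WW I0 j ⟨lev (j γ.1.M) (j M) + 1, (fun i => j γ.1.M i, fun i => γ.1.m i)⟩ ∧ γ'.1 ∈ A} = ∅ := by
        rw [Set.eq_empty_iff_forall_notMem]
        rintro z ⟨hz, hzA⟩
        have e1 := hz.1 ⟨lev (j γ.1.M) (j M), Nat.lt_succ_self _⟩
        have e2 : j z.1.M (lev (j γ.1.M) (j M)) = j γ.1.M (lev (j γ.1.M) (j M)) := e1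
        rw [(h1 z.1 hzA).1] at e2
        exact lev_ne _ _ hjne e2.symm
      rw [this]
      exact Set.finite_empty
  · refine ⟨_, hmem 0, ?_⟩
    have : {γ' | γ' ∈ WW I0 j ⟨0, (fun i => j γ.1.M i, fun i => γ.1.m i)⟩ ∧ γ'.1 ∈ A} = ∅ := by
      rw [Set.eq_empty_iff_forall_notMem]
      rintro z ⟨_, hzA⟩
      apply hM
      rw [← (h1 z.1 hzA).1]
      exact z.2
    rw [this]
    exact Set.finite_empty

theorem exists_inj (I0 : Set (Set B)) (h : Cardinal.mk I0 ≤ Cardinal.continuum) :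
    ∃ j : Set B → B, Set.InjOn j I0 := by
  classical
  have hB : Cardinal.mk B = Cardinal.continuum := by simp [B]
  rw [← hB] at h
  obtain ⟨ι⟩ := h
  refine ⟨fun M => if hM : M ∈ I0 then ι ⟨M, hM⟩ else fun _ => false, ?_⟩
  intro M hM M' hM' heq
  simp only [dif_pos hM, dif_pos hM'] at heq
  exact congrArg Subtype.val (ι.injective heq)

theorem key_open (f : XX → ℝ) (hf : Continuous f) (A : Set Gam) (hA : Adm A) (h1 : f (pt A hA) = 1) :
    ∃ F : Finset Gam, 1/2 < f (pt (A ∩ F) (hA.mono Set.inter_subset_left)) := by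
  have hopen : IsOpen {x : XX | 1/2 < f x} := isOpen_lt continuous_const hf
  obtain ⟨O, hO, hOe⟩ := isOpen_induced_iff.mp hopen
  have hmem : (pt A hA).1 ∈ O := by
    have : pt A hA ∈ Subtype.val ⁻¹' O := by
      rw [hOe]
      show 1/2 < f (pt A hA)
      rw [h1]
      norm_num
    exact this
  obtain ⟨I, u, hu, hI⟩ := isOpen_pi_iff.mp hO _ hmem
  refine ⟨I, ?_⟩
  have h2 : (pt (A ∩ I) (hA.mono Set.inter_subset_left)).1 ∈ O := by
    apply hI
    intro γ hγ
    have h3 : (pt (A ∩ I) (hA.mono Set.inter_subset_left)).1 γ = (pt A hA).1 γ := by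
      rw [Bool.eq_iff_iff, pt_apply, pt_apply]
      exact ⟨fun h => h.1, fun h => ⟨h, hγ⟩⟩
    rw [h3]
    exact (hu γ hγ).2
  have h4 : pt (A ∩ I) (hA.mono Set.inter_subset_left) ∈ Subtype.val ⁻¹' O := h2
  rw [hOe] at h4
  exact h4

/-- evaluation at an index -/
noncomputable def ev (γ : Gam) : C(XX, ℝ) := ⟨fun x => if x.1 γ = true then 1 else 0, by
  exact (continuous_of_discreteTopology (f := fun b : Bool => if b = true then (1:ℝ) else 0)).comp
    ((continuous_apply γ).comp continuous_subtype_val)⟩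

theorem ev_pos (γ : Gam) (x : XX) (h : x.1 γ = true) : ev γ x = 1 := if_pos h
theorem ev_neg (γ : Gam) (x : XX) (h : ¬ x.1 γ = true) : ev γ x = 0 := if_neg h

theorem supp_closure (I0 : Set (Set B)) (A : Set XX) (hA : ∀ x ∈ A, ∀ γ, x.1 γ = true → γ.M ∈ I0)
    (x : XX) (hx : x ∈ closure A) (γ : Gam) (hγ : γ.M ∉ I0) : x.1 γ = false := by
  have hc : Continuous (fun x : XX => x.1 γ) := (continuous_apply γ).comp continuous_subtype_val
  have hcl : IsClosed {x : XX | x.1 γ = false} := (isClosed_discrete ({false} : Set Bool)).preimage hc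
  have hsub : A ⊆ {x : XX | x.1 γ = false} := by
    intro y hy
    show y.1 γ = false
    rw [← Bool.not_eq_true]
    exact fun h => hγ (hA y hy γ h)
  exact closure_minimal hsub hcl hx

end Pool.Agent.H19.Gulko
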