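import Mathlib

namespace Pool.Agent.H19.SSep

open Set Filter Topology

abbrev T := UnitAddCircle

/-- coercion to the circle -/
noncomputable def e (x : ℝ) : T := ((x : ℝ) : UnitAddCircle)

lemma continuous_e : Continuous e := AddCircle.continuous_mk' 1

lemma e_add (x y : ℝ) : e (x + y) = e x + e y := rfl

lemma e_int (m : ℤ) : e (m : ℝ) = 0 := by
  unfold e
  have := (AddCircle.coe_eq_zero_iff (1 : ℝ) (x := (m : ℝ))).2 ⟨m, by simp⟩
  exact this

lemma e_eq_zero_iff (x : ℝ) : e x = 0 ↔ ∃ m : ℤ, (m : ℝ) = x := by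
  unfold e
  rw [AddCircle.coe_eq_zero_iff]
  constructor
  · rintro ⟨n, hn⟩; exact ⟨n, by simpa using hn⟩
  · rintro ⟨n, hn⟩; exact ⟨n, by simpa using hn⟩

lemma e_surj (z : T) : ∃ y : ℝ, e y = z := by
  obtain ⟨y, hy⟩ := QuotientAddGroup.mk_surjective z
  exact ⟨y, hy⟩

lemma e_zsmul (n : ℤ) (x : ℝ) : e ((n : ℝ) * x) = n • e x := by
  unfold e
  rw [← zsmul_eq_mul]
  exact AddCircle.coe_zsmul (1 : ℝ)

lemma dist_e_le (x y : ℝ) : dist (e x) (e y) ≤ |x - y| := by
  rw [dist_eq_norm]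
  have : e x - e y = ((x - y : ℝ) : UnitAddCircle) := rfl
  rw [this]
  have := AddCircle.norm_eq (p := (1 : ℝ)) (x := x - y)
  rw [this]
  simp only [inv_one, one_mul, mul_one]
  calc |x - y - round (x - y)| ≤ |x - y| := by
        have := round_le (x - y) 0
        simpa using this

/-- generic density lemma. -/
lemma generic_dense {X Y I : Type*} [TopologicalSpace X] [TopologicalSpace Y]
    [SecondCountableTopology Y] (f : I → X → Y) (hf : ∀ i, Continuous (f i))
    (h : ∀ (V : Set X) (U : Set Y), IsOpen V → V.Nonempty → IsOpen U → U.Nonempty →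
      ∃ x ∈ V, ∃ i, f i x ∈ U) :
    {x | Dense (Set.range fun i => f i x)} ∈ residual X := by
  classical
  have hb := TopologicalSpace.isBasis_countableBasis Y
  have key : ∀ U ∈ TopologicalSpace.countableBasis Y, {x | ∃ i, f i x ∈ U} ∈ residual X := by
    intro U hU
    apply residual_of_dense_open
    · have : {x | ∃ i, f i x ∈ U} = ⋃ i, f i ⁻¹' U := by ext; simp
      rw [this]
      exact isOpen_iUnion fun i => (hb.isOpen hU).preimage (hf i)
    · rw [dense_iff_inter_open]
      intro V hV hVne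
      obtain ⟨x, hx, i, hi⟩ := h V U hV hVne (hb.isOpen hU)
        (TopologicalSpace.nonempty_of_mem_countableBasis hU)
      exact ⟨x, hx, i, hi⟩
  have := (countable_bInter_mem (TopologicalSpace.countable_countableBasis Y)).2 key
  refine Filter.mem_of_superset this ?_
  intro x hx
  simp only [mem_iInter, mem_ofPred_eq] at hx ⊢
  rw [hb.dense_iff]
  intro o ho hone
  obtain ⟨i, hi⟩ := hx o ho
  exact ⟨f i x, hi, ⟨i, rfl⟩⟩

/-- the set `S` has the line density property. -/
def LD (S : Set ℝ) : Prop :=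
  ∀ F : Finset ℝ, (↑F : Set ℝ) ⊆ S → ∀ N : ℝ, ∀ u : ℝ → Set T, (∀ t, IsOpen (u t)) →
    (∀ t, (u t).Nonempty) → ∃ s : ℝ, N < s ∧ ∀ t ∈ F, e (t * s) ∈ u t

lemma LD_empty : LD ∅ := by
  intro F hF N u _ _
  refine ⟨N + 1, by linarith, ?_⟩
  intro t ht
  exact absurd (hF ht) (by simp)

/-- from finite to product open sets -/
lemma LD.open_pi {S : Set ℝ} (h : LD S) (N : ℝ) (U : Set (S → T)) (hU : IsOpen U)
    (hne : U.Nonempty) : ∃ s : ℝ, N < s ∧ (fun t : S => e (t * s)) ∈ U := by
  classical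
  obtain ⟨v, hv⟩ := hne
  obtain ⟨I, u, hu, hIu⟩ := isOpen_pi_iff.1 hU v hv
  let u' : ℝ → Set T := fun t => if ht : t ∈ S then
      (if (⟨t, ht⟩ : S) ∈ I then u ⟨t, ht⟩ else univ) else univ
  obtain ⟨s, hs, hs'⟩ := h (Finset.image (fun t : S => (t : ℝ)) I)
    (by intro t ht
        rw [Finset.coe_image] at ht
        obtain ⟨x, _, rfl⟩ := ht
        exact x.2) N u'
    (by
      intro t
      by_cases ht : t ∈ S
      · by_cases ht' : (⟨t, ht⟩ : S) ∈ I
        · simp only [u', ht, ht', dif_pos, if_pos]; exact (hu _ ht').1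
        · simp only [u', ht, ht', dif_pos, if_false]; exact isOpen_univ
      · simp only [u', ht, dif_neg, not_false_iff]; exact isOpen_univ)
    (by
      intro t
      by_cases ht : t ∈ S
      · by_cases ht' : (⟨t, ht⟩ : S) ∈ I
        · simp only [u', ht, ht', dif_pos, if_pos]; exact ⟨_, (hu _ ht').2⟩
        · simp only [u', ht, ht', dif_pos, if_false]; exact ⟨0, trivial⟩
      · simp only [u', ht, dif_neg, not_false_iff]; exact ⟨0, trivial⟩)
  refine ⟨s, hs, hIu ?_⟩
  intro t ht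
  have h1 := hs' t (Finset.mem_image.2 ⟨t, ht, rfl⟩)
  have ht' : (⟨(t : ℝ), t.2⟩ : S) ∈ I := ht
  simp only [u', t.2, ht', dif_pos, if_pos] at h1
  exact h1

/-- one more parameter -/
lemma LD.generic {S : Set ℝ} (hS : S.Countable) (h : LD S) (N : ℝ) :
    {t : ℝ | Dense (Set.range fun s : {s : ℝ // N < s} =>
      ((fun t' : S => e (t' * s), e (t * s)) : (S → T) × T))} ∈ residual ℝ := by
  haveI : Countable S := hS.to_subtype
  refine generic_dense (X := ℝ) (Y := (S → T) × T) (I := {s : ℝ // N < s})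
    (fun s t => ((fun t' : S => e (t' * s), e (t * s)) : (S → T) × T)) ?_ ?_
  · intro s
    exact continuous_const.prodMk (continuous_e.comp (continuous_id.mul continuous_const))
  · intro V U hV hVne hU hUne
    obtain ⟨t₀, ht₀⟩ := hVne
    obtain ⟨η, hη, hball⟩ := Metric.isOpen_iff.1 hV t₀ ht₀
    obtain ⟨⟨v, z⟩, hvz⟩ := hUne
    obtain ⟨U₁, U₂, hU₁, hU₂, hv, hz, hsub⟩ := isOpen_prod_iff.1 hU v z hvz
    obtain ⟨s, hs, hsU⟩ := h.open_pi (max N (1 / η)) U₁ hU₁ ⟨v, hv⟩
    obtain ⟨y, rfl⟩ := e_surj z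
    have hs0 : 0 < s := lt_of_lt_of_le (by positivity) ((le_max_right N (1/η)).trans hs.le)
    refine ⟨(y + round (t₀ * s - y)) / s, hball ?_, ⟨s, (le_max_left _ _).trans_lt hs⟩,
      hsub ⟨hsU, ?_⟩⟩
    · rw [Metric.mem_ball, Real.dist_eq]
      have h1 : (y + round (t₀ * s - y)) / s - t₀ = -((t₀ * s - y) - round (t₀ * s - y)) / s := by
        field_simp
        ring
      rw [h1, abs_div, abs_neg, abs_of_pos hs0]
      have h2 := abs_sub_round (t₀ * s - y)
      rw [div_lt_iff₀ hs0]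
      have h3 : 1 / η < s := (le_max_right _ _).trans_lt hs
      rw [div_lt_iff₀ hη] at h3
      nlinarith
    · show e ((y + round (t₀ * s - y)) / s * s) ∈ U₂
      rw [div_mul_cancel₀ _ hs0.ne', e_add, e_int, add_zero]
      exact hz

lemma LD.extend {S : Set ℝ} (hS : S.Countable) (h : LD S) : ∃ t, t ∉ S ∧ LD (insert t S) := by
  classical
  have h1 : {t : ℝ | ∀ N : ℕ, Dense (Set.range fun s : {s : ℝ // (N : ℝ) < s} =>
      ((fun t' : S => e (t' * s), e (t * s)) : (S → T) × T))} ∈ residual ℝ := by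
    have := fun N : ℕ => h.generic hS (N : ℝ)
    have h2 := (countable_iInter_mem (l := residual ℝ)).2 this
    refine Filter.mem_of_superset h2 ?_
    intro t ht N
    exact mem_iInter.1 ht N
  have h2 : {t : ℝ | t ∉ S} ∈ residual ℝ := by
    have h3 : ∀ x ∈ S, ({x}ᶜ : Set ℝ) ∈ residual ℝ := fun x _ =>
      residual_of_dense_open isOpen_compl_singleton (dense_compl_singleton x)
    refine Filter.mem_of_superset ((countable_bInter_mem hS).2 h3) ?_
    intro t ht htS
    simp only [mem_iInter] at ht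
    exact ht t htS rfl
  obtain ⟨t, ht, htS⟩ := (dense_of_mem_residual (Filter.inter_mem h1 h2)).nonempty
  refine ⟨t, htS, ?_⟩
  intro F hF N u huo hune
  obtain ⟨M, hM⟩ := exists_nat_gt N
  let U : Set ((S → T) × T) := {p | (∀ t' : S, (t' : ℝ) ∈ F → p.1 t' ∈ u t') ∧ p.2 ∈ u t}
  have hUo : IsOpen U := by
    have : U = (Set.pi (↑(F.subtype (· ∈ S)) : Set S) (fun t' => u t')) ×ˢ u t := by
      ext ⟨p, q⟩
      simp [U, Set.mem_pi]
    rw [this]
    exact (isOpen_set_pi (Finset.finite_toSet _) (fun i _ => huo _)).prod (huo _)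
  have hUne : U.Nonempty := by
    refine ⟨(fun t' => (hune t').some, (hune t).some), fun t' _ => (hune t').some_mem,
      (hune t).some_mem⟩
  obtain ⟨p, hpU, ⟨s, rfl⟩⟩ := (ht M).inter_open_nonempty U hUo hUne
  refine ⟨s, hM.trans s.2, ?_⟩
  intro t' ht'
  rcases hF ht' with rfl | hS'
  · exact hpU.2
  · exact hpU.1 ⟨t', hS'⟩ ht'

lemma exists_uncountable_LD : ∃ S : Set ℝ, ¬ S.Countable ∧ LD S := by
  classical
  obtain ⟨M, hM⟩ := zorn_subset {S : Set ℝ | LD S} (by
    intro c hc hchain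
    refine ⟨⋃₀ c, ?_, fun s hs => subset_sUnion_of_mem hs⟩
    intro F hF N u huo hune
    rcases c.eq_empty_or_nonempty with rfl | hcne
    · simp only [sUnion_empty] at hF
      exact LD_empty F hF N u huo hune
    · obtain ⟨S, hSc, hFS⟩ := hchain.directedOn.exists_mem_subset_of_finset_subset_biUnion
        hcne (f := id) (s := F) (by rwa [sUnion_eq_biUnion] at hF)
      exact hc hSc F hFS N u huo hune)
  refine ⟨M, ?_, hM.prop⟩
  intro hcount
  obtain ⟨t, htM, ht⟩ := LD.extend hcount hM.prop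
  exact htM (hM.le_of_ge ht (subset_insert t M) (mem_insert t M))

end Pool.Agent.H19.SSep
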