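import Mathlib
import Pool.Agent.H19.SSepA

namespace Pool.Agent.H19.SSep

open Set Filter Topology

/-- multiplication by a large integer maps small balls onto the circle. -/
lemma mul_surj_ball (c₀ v : T) (N : ℤ) (η : ℝ) (hη : 0 < η) (hN : 1 < |(N : ℝ)| * η) :
    ∃ c : T, dist c c₀ < η ∧ N • c = v := by
  obtain ⟨x₀, rfl⟩ := e_surj c₀
  obtain ⟨y, rfl⟩ := e_surj v
  have hN0 : (N : ℝ) ≠ 0 := by
    rintro h
    rw [h] at hN
    simp at hN
    linarith
  have hNa : 0 < |(N : ℝ)| := abs_pos.2 hN0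
  refine ⟨e ((y + round (N * x₀ - y)) / N), ?_, ?_⟩
  · refine (dist_e_le _ _).trans_lt ?_
    have h1 : (y + round (N * x₀ - y)) / N - x₀ = -((N * x₀ - y) - round (N * x₀ - y)) / N := by
      field_simp
      ring
    rw [h1, abs_div, abs_neg, div_lt_iff₀ hNa]
    have h2 := abs_sub_round (N * x₀ - y)
    nlinarith
  · rw [← e_zsmul, mul_div_cancel₀ _ hN0, e_add, e_int, add_zero]

lemma uniform_box {K : Type*} (V : Set (ℝ × (K → T))) (hV : IsOpen V) (p : ℝ × (K → T))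
    (hp : p ∈ V) : ∃ η > 0, ∀ q : ℝ × (K → T), |q.1 - p.1| < η → (∀ i, dist (q.2 i) (p.2 i) < η) →
      q ∈ V := by
  classical
  obtain ⟨V₁, V₂, hV₁, hV₂, hp1, hp2, hsub⟩ := isOpen_prod_iff.1 hV p.1 p.2 hp
  obtain ⟨ε, hε, hball⟩ := Metric.isOpen_iff.1 hV₁ _ hp1
  obtain ⟨I, u, hu, hIu⟩ := isOpen_pi_iff.1 hV₂ _ hp2
  have h1 : ∀ i : K, ∃ δ > 0, i ∈ I → Metric.ball (p.2 i) δ ⊆ u i := by
    intro i
    by_cases hi : i ∈ I
    · obtain ⟨δ, hδ, h⟩ := Metric.isOpen_iff.1 (hu i hi).1 _ (hu i hi).2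
      exact ⟨δ, hδ, fun _ => h⟩
    · exact ⟨1, one_pos, fun h => absurd h hi⟩
  choose δ hδ hδu using h1
  rcases I.eq_empty_or_nonempty with rfl | hI
  · refine ⟨ε, hε, fun q hq1 _ => hsub ⟨hball ?_, hIu (by simp)⟩⟩
    rwa [Metric.mem_ball, Real.dist_eq]
  · refine ⟨min ε (I.inf' hI δ), lt_min hε ((Finset.lt_inf'_iff hI).2 fun i _ => hδ i), ?_⟩
    intro q hq1 hq2
    refine hsub ⟨hball ?_, hIu ?_⟩
    · rw [Metric.mem_ball, Real.dist_eq]
      exact hq1.trans_le (min_le_left _ _)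
    · intro i hi
      refine hδu i hi ?_
      rw [Metric.mem_ball]
      exact (hq2 i).trans_le ((min_le_right _ _).trans (Finset.inf'_le _ hi))

/-- genericity at one stage -/
lemma stage_generic {K : Type*} [Countable K] (p₁ p₂ : ℝ) (q₁ q₂ : K → T) (k : ℤ) (hp : p₁ ≠ 0)
    (hk : k ≠ 0) :
    {x : ℝ × (K → T) | Dense (Set.range fun n : ℤ × ℤ =>
      (((n.1 : ℝ) * p₁ + (n.2 : ℝ) * ((k : ℝ) * x.1 + p₂),
        fun i => n.1 • q₁ i + n.2 • (k • x.2 i + q₂ i)) : ℝ × (K → T)))}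
      ∈ residual (ℝ × (K → T)) := by
  refine generic_dense (X := ℝ × (K → T)) (Y := ℝ × (K → T)) (I := ℤ × ℤ)
    (fun n x => (((n.1 : ℝ) * p₁ + (n.2 : ℝ) * ((k : ℝ) * x.1 + p₂),
        fun i => n.1 • q₁ i + n.2 • (k • x.2 i + q₂ i)) : ℝ × (K → T))) ?_ ?_
  · intro n
    fun_prop
  · intro V U hV hVne hU hUne
    obtain ⟨⟨r₀, c₀⟩, hp0⟩ := hVne
    obtain ⟨⟨u₀, w₀⟩, hu0⟩ := hUne
    obtain ⟨η, hη, hbox⟩ := uniform_box V hV _ hp0
    have hkr : (k : ℝ) ≠ 0 := by exact_mod_cast hk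
    have hka : 1 ≤ |(k : ℝ)| := by
      have := Int.one_le_abs hk
      exact_mod_cast this
    obtain ⟨n, hn⟩ := exists_nat_gt ((|p₁| + 1) / η)
    rw [div_lt_iff₀ hη] at hn
    have hpa : 0 < |p₁| := abs_pos.2 hp
    have hn0 : (0 : ℝ) < n := by
      by_contra h
      push Not at h
      nlinarith
    -- the real coordinate
    set m : ℤ := round ((u₀ - n * p₂ - n * k * r₀) / p₁) with hm
    have hnk : (n : ℝ) * k ≠ 0 := mul_ne_zero hn0.ne' hkr
    set r : ℝ := (u₀ - n * p₂ - m * p₁) / (n * k) with hr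
    have hr1 : |r - r₀| < η := by
      have h1 : r - r₀ = (((u₀ - n * p₂ - n * k * r₀) / p₁) - m) * p₁ / (n * k) := by
        rw [hr]
        field_simp
        ring
      rw [h1, abs_div, abs_mul, div_lt_iff₀ (abs_pos.2 hnk), abs_mul, abs_of_pos hn0]
      have h2 := abs_sub_round ((u₀ - n * p₂ - n * k * r₀) / p₁)
      rw [← hm] at h2
      have h3 : |(u₀ - ↑n * p₂ - ↑n * ↑k * r₀) / p₁ - ↑m| * |p₁| ≤ 1/2 * |p₁| :=
        mul_le_mul_of_nonneg_right h2 hpa.le
      have h4 : (n : ℝ) * η ≤ n * |(k : ℝ)| * η := by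
        have : (0:ℝ) ≤ n * η := by positivity
        nlinarith
      nlinarith
    have h5 : ∀ i : K, ∃ c : T, dist c (c₀ i) < η ∧
        ((n : ℤ) * k) • c = w₀ i - m • q₁ i - (n : ℤ) • q₂ i := by
      intro i
      apply mul_surj_ball _ _ _ _ hη
      push_cast
      rw [abs_mul, abs_of_pos hn0]
      have : (0:ℝ) ≤ n * η := by positivity
      nlinarith
    choose c hc1 hc2 using h5
    refine ⟨(r, c), hbox _ hr1 hc1, (m, (n : ℤ)), ?_⟩
    have e1 : ((m : ℝ) * p₁ + ((n : ℤ) : ℝ) * ((k : ℝ) * r + p₂)) = u₀ := by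
      rw [hr]
      push_cast
      field_simp
      ring
    have e2 : (fun i => m • q₁ i + (n : ℤ) • (k • c i + q₂ i)) = w₀ := by
      funext i
      rw [smul_add, smul_smul, hc2 i]
      abel
    show (((m : ℝ) * p₁ + ((n : ℤ) : ℝ) * ((k : ℝ) * r + p₂)),
      (fun i => m • q₁ i + (n : ℤ) • (k • c i + q₂ i))) ∈ U
    rw [e1, e2]
    exact hu0

lemma stage_ne {K : Type*} [Countable K] (p : ℝ) (k : ℤ) (hk : k ≠ 0) :
    {x : ℝ × (K → T) | (k : ℝ) * x.1 + p ≠ 0} ∈ residual (ℝ × (K → T)) := by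
  have hkr : (k : ℝ) ≠ 0 := by exact_mod_cast hk
  have : {x : ℝ × (K → T) | (k : ℝ) * x.1 + p ≠ 0} = Prod.fst ⁻¹' ({-p / k}ᶜ) := by
    ext x
    simp only [ne_eq, mem_ofPred_eq, mem_preimage, mem_compl_iff, mem_singleton_iff, not_iff_not]
    constructor
    · intro h
      field_simp
      linarith
    · intro h
      rw [h]
      field_simp
      ring
  rw [this]
  apply residual_of_dense_open
  · exact isOpen_compl_singleton.preimage continuous_fst
  · exact (dense_compl_singleton _).preimage isOpenMap_fst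

/-- transfinite recursion. -/
lemma exists_rec {ι X : Type*} [LinearOrder ι] [WellFoundedLT ι] [Nonempty X]
    (R : ι → (ι → X) → X → Prop)
    (hloc : ∀ β g g' x, (∀ β' < β, g β' = g' β') → R β g x → R β g' x)
    (hex : ∀ β g, ∃ x, R β g x) : ∃ g : ι → X, ∀ β, R β g (g β) := by
  classical
  choose F hF using hex
  let step : ∀ β : ι, (∀ β' : ι, β' < β → X) → X := fun β g =>
    F β (fun β' => if h : β' < β then g β' h else Classical.arbitrary X)
  let g : ι → X := WellFounded.fix (wellFounded_lt (α := ι)) step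
  have hg : ∀ β, g β = F β (fun β' => if β' < β then g β' else Classical.arbitrary X) := by
    intro β
    show WellFounded.fix _ step β = _
    rw [WellFounded.fix_eq]
    show F β _ = F β _
    congr 1
  refine ⟨g, fun β => ?_⟩
  have h1 := hF β (fun β' => if β' < β then g β' else Classical.arbitrary X)
  rw [← hg β] at h1
  exact hloc β _ g _ (fun β' hβ' => by simp [hβ']) h1

end Pool.Agent.H19.SSep
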