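import Mathlib
import Pool.Agent.H19.SSepB

namespace Pool.Agent.H19.SSep

open Set Filter Topology

/-- real parameters indexed by `J` in general position. -/
lemma exists_params (J : Type) (hJ : Cardinal.mk J ≤ Cardinal.aleph 1) :
    ∃ t : J → ℝ, ∀ F : Finset J, ∀ u : J → Set T, (∀ j, IsOpen (u j)) → (∀ j, (u j).Nonempty) →
      ∃ s : ℝ, ∀ j ∈ F, e (t j * s) ∈ u j := by
  classical
  obtain ⟨S, hS, hLD⟩ := exists_uncountable_LD
  have h1 : Cardinal.aleph 1 ≤ Cardinal.mk S := by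
    by_contra h
    push Not at h
    apply hS
    rw [← Cardinal.le_aleph0_iff_set_countable]
    rw [← Cardinal.succ_aleph0] at h
    exact Order.lt_succ_iff.1 h
  obtain ⟨f⟩ := (Cardinal.le_def J S).1 (hJ.trans h1)
  refine ⟨fun j => (f j : ℝ), ?_⟩
  intro F u huo hune
  let u' : ℝ → Set T := fun x => if h : ∃ j, (f j : ℝ) = x then u h.choose else univ
  obtain ⟨s, _, hs⟩ := hLD (F.image (fun j => (f j : ℝ)))
    (by intro x hx
        rw [Finset.coe_image] at hx
        obtain ⟨j, _, rfl⟩ := hx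
        exact (f j).2) 0 u'
    (by intro x
        by_cases h : ∃ j, (f j : ℝ) = x
        · simp only [u', h, dif_pos]; exact huo _
        · simp only [u', h, dif_neg, not_false_iff]; exact isOpen_univ)
    (by intro x
        by_cases h : ∃ j, (f j : ℝ) = x
        · simp only [u', h, dif_pos]; exact hune _
        · simp only [u', h, dif_neg, not_false_iff]; exact ⟨0, trivial⟩)
  refine ⟨s, fun j hj => ?_⟩
  have h2 := hs (f j) (Finset.mem_image.2 ⟨j, hj, rfl⟩)
  have h3 : ∃ j', (f j' : ℝ) = f j := ⟨j, rfl⟩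
  simp only [u', h3, dif_pos] at h2
  have h4 : h3.choose = j := f.injective (Subtype.ext h3.choose_spec)
  rwa [h4] at h2

variable {ι : Type} [LinearOrder ι]

/-- the real-valued homomorphism -/
noncomputable def phi (g : ι → ℝ × (ι → T)) (a : ι →₀ ℤ) : ℝ :=
  a.sum fun β n => (n : ℝ) * (g β).1

/-- the matrix of the characters -/
noncomputable def M (t : ι → ℝ) (g : ι → ℝ × (ι → T)) (δ β : ι) : T :=
  open Classical in if δ ≤ β then (g β).2 δ else e (t δ * (g β).1)

/-- the characters -/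
noncomputable def chi (t : ι → ℝ) (g : ι → ℝ × (ι → T)) (δ : ι) (a : ι →₀ ℤ) : T :=
  a.sum fun β n => n • M t g δ β

lemma phi_add (g : ι → ℝ × (ι → T)) (a b : ι →₀ ℤ) : phi g (a + b) = phi g a + phi g b := by
  classical
  exact Finsupp.sum_add_index' (by simp) (by intros; push_cast; ring)

lemma chi_add (t : ι → ℝ) (g : ι → ℝ × (ι → T)) (δ : ι) (a b : ι →₀ ℤ) :
    chi t g δ (a + b) = chi t g δ a + chi t g δ b := by
  classical
  exact Finsupp.sum_add_index' (by simp) (by intros; rw [add_smul])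

lemma phi_single (g : ι → ℝ × (ι → T)) (β : ι) (k : ℤ) :
    phi g (Finsupp.single β k) = k * (g β).1 := by
  unfold phi
  rw [Finsupp.sum_single_index (by simp)]

lemma chi_single (t : ι → ℝ) (g : ι → ℝ × (ι → T)) (δ β : ι) (k : ℤ) :
    chi t g δ (Finsupp.single β k) = k • M t g δ β := by
  unfold chi
  rw [Finsupp.sum_single_index (by simp)]

/-- `phi` as a homomorphism -/
noncomputable def phiHom (g : ι → ℝ × (ι → T)) : (ι →₀ ℤ) →+ ℝ :=
  AddMonoidHom.mk' (phi g) (phi_add g)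

/-- `chi` as a homomorphism -/
noncomputable def chiHom (t : ι → ℝ) (g : ι → ℝ × (ι → T)) (δ : ι) : (ι →₀ ℤ) →+ T :=
  AddMonoidHom.mk' (chi t g δ) (chi_add t g δ)

lemma phi_zsmul (g : ι → ℝ × (ι → T)) (n : ℤ) (a : ι →₀ ℤ) : phi g (n • a) = n * phi g a := by
  have := (phiHom g).map_zsmul n a
  rw [zsmul_eq_mul] at this
  exact this

lemma chi_zsmul (t : ι → ℝ) (g : ι → ℝ × (ι → T)) (δ : ι) (n : ℤ) (a : ι →₀ ℤ) :
    chi t g δ (n • a) = n • chi t g δ a := (chiHom t g δ).map_zsmul n a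

lemma phi_congr {g g' : ι → ℝ × (ι → T)} {β : ι} (h : ∀ β' < β, g β' = g' β') {a : ι →₀ ℤ}
    (ha : (↑a.support : Set ι) ⊆ Iio β) : phi g a = phi g' a := by
  unfold phi
  refine Finsupp.sum_congr fun x hx => ?_
  rw [h x (ha hx)]

lemma chi_congr {t : ι → ℝ} {g g' : ι → ℝ × (ι → T)} {β : ι} (h : ∀ β' < β, g β' = g' β')
    {a : ι →₀ ℤ} (ha : (↑a.support : Set ι) ⊆ Iio β) (δ : ι) : chi t g δ a = chi t g' δ a := by
  unfold chi
  refine Finsupp.sum_congr fun x hx => ?_
  unfold M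
  rw [h x (ha hx)]

lemma chi_above {t : ι → ℝ} {g : ι → ℝ × (ι → T)} {δ : ι} {a : ι →₀ ℤ}
    (ha : (↑a.support : Set ι) ⊆ Iio δ) : chi t g δ a = e (t δ * phi g a) := by
  unfold chi phi
  have h1 : ∀ x ∈ a.support, a x • M t g δ x = e ((a x : ℝ) * (t δ * (g x).1)) := by
    intro x hx
    rw [e_zsmul]
    unfold M
    rw [if_neg (not_le.2 (ha hx))]
  have h2 : ∀ (s : Finset ι) (f : ι → ℝ), e (∑ x ∈ s, f x) = ∑ x ∈ s, e (f x) := by
    intro s f
    classical
    induction s using Finset.induction_on with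
    | empty => simp only [Finset.sum_empty]; have := e_int 0; simpa using this
    | insert x s hx ih => rw [Finset.sum_insert hx, Finset.sum_insert hx, e_add, ih]
  unfold Finsupp.sum
  rw [Finset.mul_sum, h2]
  refine Finset.sum_congr rfl fun x hx => ?_
  show a x • M t g δ x = e (t δ * ((a x : ℝ) * (g x).1))
  rw [h1 x hx]
  congr 1
  ring

lemma countable_supp (s : Set ι) (hs : s.Countable) :
    {a : ι →₀ ℤ | (↑a.support : Set ι) ⊆ s}.Countable := by
  haveI := hs.to_subtype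
  have h1 : Countable (Finsupp.supported ℤ ℤ s) :=
    (Finsupp.supportedEquivFinsupp (M := ℤ) (R := ℤ) s).toEquiv.countable_iff.2 inferInstance
  exact h1

/-- existence of the generic data -/
lemma exists_g [WellFoundedLT ι] (hc : ∀ β : ι, (Iic β).Countable) (t : ι → ℝ) :
    ∃ g : ι → ℝ × (ι → T), ∀ β,
      (∀ b₁ a' : ι →₀ ℤ, (↑b₁.support : Set ι) ⊆ Iio β → (↑a'.support : Set ι) ⊆ Iio β →
        phi g b₁ ≠ 0 → ∀ k : ℤ, k ≠ 0 → Dense (Set.range fun n : ℤ × ℤ =>
        (((n.1 : ℝ) * phi g b₁ + (n.2 : ℝ) * ((k : ℝ) * (g β).1 + phi g a'),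
        fun δ : Iic β => n.1 • chi t g δ b₁ + n.2 • (k • (g β).2 δ + chi t g δ a')) :
          ℝ × (Iic β → T)))) ∧
      (∀ a' : ι →₀ ℤ, (↑a'.support : Set ι) ⊆ Iio β → ∀ k : ℤ, k ≠ 0 →
        (k : ℝ) * (g β).1 + phi g a' ≠ 0) := by
  classical
  refine exists_rec (ι := ι) (X := ℝ × (ι → T)) (fun β g x =>
      (∀ b₁ a' : ι →₀ ℤ, (↑b₁.support : Set ι) ⊆ Iio β → (↑a'.support : Set ι) ⊆ Iio β →
        phi g b₁ ≠ 0 → ∀ k : ℤ, k ≠ 0 → Dense (Set.range fun n : ℤ × ℤ =>
        (((n.1 : ℝ) * phi g b₁ + (n.2 : ℝ) * ((k : ℝ) * x.1 + phi g a'),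
        fun δ : Iic β => n.1 • chi t g δ b₁ + n.2 • (k • x.2 δ + chi t g δ a')) :
          ℝ × (Iic β → T)))) ∧
      (∀ a' : ι →₀ ℤ, (↑a'.support : Set ι) ⊆ Iio β → ∀ k : ℤ, k ≠ 0 →
        (k : ℝ) * x.1 + phi g a' ≠ 0)) ?_ ?_
  · rintro β g g' x hgg ⟨h1, h2⟩
    refine ⟨?_, ?_⟩
    · intro b₁ a' hb ha hne k hk
      rw [← phi_congr hgg hb] at hne
      have := h1 b₁ a' hb ha hne k hk
      simp only [phi_congr hgg hb, phi_congr hgg ha, chi_congr hgg hb, chi_congr hgg ha] at this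
      exact this
    · intro a' ha k hk
      rw [← phi_congr hgg ha]
      exact h2 a' ha k hk
  · intro β g
    have hcβ : Countable (Iic β) := (hc β).to_subtype
    have hcs : {a : ι →₀ ℤ | (↑a.support : Set ι) ⊆ Iio β}.Countable :=
      countable_supp _ ((hc β).mono Iio_subset_Iic_self)
    have hcs' := hcs.to_subtype
    let A := {a : ι →₀ ℤ | (↑a.support : Set ι) ⊆ Iio β}
    have hA : Countable A := hcs'
    have h1 : ∀ i : (A × A) × ℤ, {x : ℝ × (Iic β → T) | phi g i.1.1 ≠ 0 → i.2 ≠ 0 →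
        Dense (Set.range fun n : ℤ × ℤ =>
        (((n.1 : ℝ) * phi g i.1.1 + (n.2 : ℝ) * ((i.2 : ℝ) * x.1 + phi g i.1.2),
        fun δ : Iic β => n.1 • chi t g δ i.1.1 + n.2 • (i.2 • x.2 δ + chi t g δ i.1.2)) :
          ℝ × (Iic β → T)))} ∈ residual (ℝ × (Iic β → T)) := by
      intro i
      by_cases hp : phi g i.1.1 ≠ 0
      · by_cases hk : i.2 ≠ 0
        · refine Filter.mem_of_superset (stage_generic (phi g i.1.1) (phi g i.1.2)
            (fun δ : Iic β => chi t g δ i.1.1) (fun δ : Iic β => chi t g δ i.1.2) i.2 hp hk) ?_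
          intro x hx _ _
          exact hx
        · refine Filter.mem_of_superset Filter.univ_mem ?_
          intro x _ _ h
          exact absurd h hk
      · refine Filter.mem_of_superset Filter.univ_mem ?_
        intro x _ h
        exact absurd h hp
    have h2 : ∀ i : A × ℤ, {x : ℝ × (Iic β → T) | i.2 ≠ 0 →
        (i.2 : ℝ) * x.1 + phi g i.1 ≠ 0} ∈ residual (ℝ × (Iic β → T)) := by
      intro i
      by_cases hk : i.2 ≠ 0
      · refine Filter.mem_of_superset (stage_ne (K := Iic β) (phi g i.1) i.2 hk) ?_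
        intro x hx _
        exact hx
      · refine Filter.mem_of_superset Filter.univ_mem ?_
        intro x _ h
        exact absurd h hk
    have h3 := Filter.inter_mem ((countable_iInter_mem (l := residual (ℝ × (Iic β → T)))).2 h1)
      ((countable_iInter_mem (l := residual (ℝ × (Iic β → T)))).2 h2)
    obtain ⟨x, hx1, hx2⟩ := (dense_of_mem_residual h3).nonempty
    rw [mem_iInter] at hx1 hx2
    refine ⟨(x.1, fun δ => if h : δ ∈ Iic β then x.2 ⟨δ, h⟩ else 0), ?_, ?_⟩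
    · intro b₁ a' hb ha hne k hk
      have := hx1 ((⟨b₁, hb⟩, ⟨a', ha⟩), k) hne hk
      have h5 : ∀ δ : Iic β, (if h : (δ : ι) ∈ Iic β then x.2 ⟨δ, h⟩ else 0) = x.2 δ := by
        intro δ
        rw [dif_pos δ.2]
      simp only [h5]
      exact this
    · intro a' ha k hk
      exact hx2 (⟨a', ha⟩, k) hk

end Pool.Agent.H19.SSep
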