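import Mathlib
import Pool.Agent.H19.SSepC

namespace Pool.Agent.H19.SSep

open Set Filter Topology TopologicalSpace

variable {ι : Type} [LinearOrder ι]

/-- the homomorphism into the product of circles -/
noncomputable def Phi (t : ι ⊕ Bool → ℝ) (g : ι → ℝ × (ι → T)) :
    (ι →₀ ℤ) →+ (ι ⊕ Bool → T) :=
  AddMonoidHom.mk' (fun a => Sum.elim (fun δ => chi (fun δ => t (Sum.inl δ)) g δ a)
    (fun i => e (t (Sum.inr i) * phi g a))) (by
    intro a b
    funext j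
    rcases j with δ | i
    · exact chi_add _ _ _ _ _
    · show e _ = e _ + e _
      rw [phi_add, mul_add, e_add])

lemma Phi_inl (t : ι ⊕ Bool → ℝ) (g : ι → ℝ × (ι → T)) (a : ι →₀ ℤ) (δ : ι) :
    Phi t g a (Sum.inl δ) = chi (fun δ => t (Sum.inl δ)) g δ a := rfl

lemma Phi_inr (t : ι ⊕ Bool → ℝ) (g : ι → ℝ × (ι → T)) (a : ι →₀ ℤ) (i : Bool) :
    Phi t g a (Sum.inr i) = e (t (Sum.inr i) * phi g a) := rfl

lemma e_half_ne : e (1/2) ≠ 0 := by
  intro h
  obtain ⟨m, hm⟩ := (e_eq_zero_iff _).1 h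
  have : (2 * m : ℝ) = 1 := by linarith
  have h2 : (2 * m : ℤ) = 1 := by exact_mod_cast this
  omega

lemma zsmul_all_zero {n : ℤ} (h : ∀ y : T, n • y = 0) : n = 0 := by
  by_contra hn
  have hn' : (n : ℝ) ≠ 0 := by exact_mod_cast hn
  have := h (e (1 / 2 / n))
  rw [← e_zsmul, mul_div_cancel₀ _ hn'] at this
  exact e_half_ne this

/-- two of the parameters are incommensurable -/
lemma incomm {J : Type} (t : J → ℝ)
    (ht : ∀ F : Finset J, ∀ u : J → Set T, (∀ j, IsOpen (u j)) → (∀ j, (u j).Nonempty) →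
      ∃ s : ℝ, ∀ j ∈ F, e (t j * s) ∈ u j) (i j : J) (hij : i ≠ j) (x : ℝ)
    (hi : e (t i * x) = 0) (hj : e (t j * x) = 0) : x = 0 := by
  classical
  have key : ∀ C : Set (T × T), IsClosed C → (∀ s : ℝ, (e (t i * s), e (t j * s)) ∈ C) →
      ∀ p, p ∈ C := by
    intro C hC hs p
    by_contra hp
    obtain ⟨u₁, u₂, h1, h2, hp1, hp2, hsub⟩ := isOpen_prod_iff.1 hC.isOpen_compl p.1 p.2 hp
    obtain ⟨s, hs'⟩ := ht {i, j} (fun l => if l = i then u₁ else u₂)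
      (by intro l; split_ifs <;> assumption)
      (by intro l; split_ifs; exacts [⟨_, hp1⟩, ⟨_, hp2⟩])
    have h3 := hs' i (by simp)
    have h4 := hs' j (by simp)
    simp only [if_true, if_neg hij.symm] at h3 h4
    exact hsub ⟨h3, h4⟩ (hs s)
  obtain ⟨m, hm⟩ := (e_eq_zero_iff _).1 hi
  obtain ⟨n, hn⟩ := (e_eq_zero_iff _).1 hj
  by_contra hx
  have h1 : (n : ℝ) * t i = m * t j := by
    have : (n * t i - m * t j) * x = 0 := by
      rw [hm, hn]; ring
    have := (mul_eq_zero.1 this).resolve_right hx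
    linarith
  have h2 := key {p | n • p.1 = m • p.2} (isClosed_eq (by fun_prop) (by fun_prop)) (by
    intro s
    show n • e (t i * s) = m • e (t j * s)
    rw [← e_zsmul, ← e_zsmul, ← mul_assoc, ← mul_assoc, h1])
  have hn0 : n = 0 := zsmul_all_zero (fun y => by
    have := h2 (y, 0)
    simpa using this)
  have hti : t j = 0 := by
    rw [hn0] at hn
    simp only [Int.cast_zero] at hn
    exact (mul_eq_zero.1 hn.symm).resolve_right hx
  have h3 := key {p | p.2 = 0} (isClosed_eq (by fun_prop) (by fun_prop)) (by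
    intro s
    show e (t j * s) = 0
    rw [hti, zero_mul]
    have := e_int 0
    simpa using this) (0, e (1/2))
  exact e_half_ne h3

/-- the genericity property that the construction needs -/
def Good (t : ι → ℝ) (g : ι → ℝ × (ι → T)) : Prop := ∀ β,
      (∀ b₁ a' : ι →₀ ℤ, (↑b₁.support : Set ι) ⊆ Iio β → (↑a'.support : Set ι) ⊆ Iio β →
        phi g b₁ ≠ 0 → ∀ k : ℤ, k ≠ 0 → Dense (Set.range fun n : ℤ × ℤ =>
        (((n.1 : ℝ) * phi g b₁ + (n.2 : ℝ) * ((k : ℝ) * (g β).1 + phi g a'),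
        fun δ : Iic β => n.1 • chi t g δ b₁ + n.2 • (k • (g β).2 δ + chi t g δ a')) :
          ℝ × (Iic β → T)))) ∧
      (∀ a' : ι →₀ ℤ, (↑a'.support : Set ι) ⊆ Iio β → ∀ k : ℤ, k ≠ 0 →
        (k : ℝ) * (g β).1 + phi g a' ≠ 0)

lemma split_top (b : ι →₀ ℤ) (β : ι) (hb : (↑b.support : Set ι) ⊆ Iic β) :
    ∃ a' : ι →₀ ℤ, (↑a'.support : Set ι) ⊆ Iio β ∧ b = Finsupp.single β (b β) + a' := by
  classical
  refine ⟨b.erase β, ?_, (Finsupp.single_add_erase β b).symm⟩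
  intro x hx
  rw [Finsupp.support_erase] at hx
  simp only [Finset.coe_erase, Set.mem_sdiff, mem_singleton_iff] at hx
  exact lt_of_le_of_ne (hb hx.1) hx.2

lemma Good.dense {t : ι → ℝ} {g : ι → ℝ × (ι → T)} (h : Good t g) (b₁ b₂ : ι →₀ ℤ) (β : ι)
    (h1 : (↑b₁.support : Set ι) ⊆ Iio β) (h2 : (↑b₂.support : Set ι) ⊆ Iic β) (hβ : b₂ β ≠ 0)
    (hb₁ : phi g b₁ ≠ 0) : Dense (Set.range fun n : ℤ × ℤ =>
      ((phi g (n.1 • b₁ + n.2 • b₂), fun δ : Iic β => chi t g δ (n.1 • b₁ + n.2 • b₂)) :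
        ℝ × (Iic β → T))) := by
  obtain ⟨a', ha', hsplit⟩ := split_top b₂ β h2
  have := (h β).1 b₁ a' h1 ha' hb₁ (b₂ β) hβ
  have e1 : ∀ n : ℤ × ℤ, phi g (n.1 • b₁ + n.2 • b₂) =
      (n.1 : ℝ) * phi g b₁ + (n.2 : ℝ) * (((b₂ β : ℤ) : ℝ) * (g β).1 + phi g a') := by
    intro n
    rw [phi_add, phi_zsmul, phi_zsmul]
    conv_lhs => rw [hsplit]
    rw [phi_add, phi_single]
  have e2 : ∀ n : ℤ × ℤ, ∀ δ : Iic β, chi t g δ (n.1 • b₁ + n.2 • b₂) =
      n.1 • chi t g δ b₁ + n.2 • (b₂ β • (g β).2 δ + chi t g δ a') := by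
    intro n δ
    rw [chi_add, chi_zsmul, chi_zsmul]
    conv_lhs => rw [hsplit]
    rw [chi_add, chi_single]
    congr 3
    unfold M
    rw [if_pos (show (δ : ι) ≤ β from δ.2)]
  simp only [e1, e2]
  exact this

lemma Good.phi_ne {t : ι → ℝ} {g : ι → ℝ × (ι → T)} (h : Good t g) (b : ι →₀ ℤ) (hb : b ≠ 0) :
    phi g b ≠ 0 := by
  have hne : b.support.Nonempty := Finsupp.support_nonempty_iff.2 hb
  have hsub : (↑b.support : Set ι) ⊆ Iic (b.support.max' hne) := fun x hx =>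
    b.support.le_max' x hx
  obtain ⟨a', ha', hsplit⟩ := split_top b _ hsub
  rw [hsplit, phi_add, phi_single]
  refine (h _).2 a' ha' _ ?_
  exact Finsupp.mem_support_iff.1 (b.support.max'_mem hne)

section sub

variable [WellFoundedLT ι]

/-- an uncountable subset of the free group contains a countable part that generates a dense
subgroup of the full torus. -/
lemma exists_dense_countable (hc : ∀ β : ι, (Iic β).Countable) (hι : Uncountable ι)
    (t : ι ⊕ Bool → ℝ) (ht : ∀ F : Finset (ι ⊕ Bool), ∀ u : ι ⊕ Bool → Set T,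
      (∀ j, IsOpen (u j)) → (∀ j, (u j).Nonempty) → ∃ s : ℝ, ∀ j ∈ F, e (t j * s) ∈ u j)
    (g : ι → ℝ × (ι → T)) (hg : Good (fun δ => t (Sum.inl δ)) g)
    (B : AddSubgroup (ι →₀ ℤ)) (hB : ¬ (B : Set (ι →₀ ℤ)).Countable) :
    ∃ D : Set (ι →₀ ℤ), D ⊆ B ∧ D.Countable ∧ Dense (Phi t g '' D) := by
  classical
  -- tops are unbounded
  have h1 : ∀ γ : ι, ∃ b ∈ B, ∃ β : ι, γ < β ∧ b β ≠ 0 ∧ (↑b.support : Set ι) ⊆ Iic β := by
    intro γ
    have : ¬ ((B : Set (ι →₀ ℤ)) ⊆ {a : ι →₀ ℤ | (↑a.support : Set ι) ⊆ Iic γ}) := fun h =>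
      hB ((countable_supp _ (hc γ)).mono h)
    rw [not_subset] at this
    obtain ⟨b, hb, hb'⟩ := this
    obtain ⟨x, hx, hx'⟩ := not_subset.1 (show ¬ ((↑b.support : Set ι) ⊆ Iic γ) from hb')
    have hne : b.support.Nonempty := ⟨x, hx⟩
    refine ⟨b, hb, b.support.max' hne, ?_, Finsupp.mem_support_iff.1 (b.support.max'_mem hne),
      fun y hy => b.support.le_max' y hy⟩
    exact (not_le.1 hx').trans_le (b.support.le_max' x hx)
  choose bb hbbB top htop hne hsub using h1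
  let γ : ℕ → ι := fun n => Nat.rec (motive := fun _ => ι) (Classical.arbitrary ι) (fun _ x => top x) n
  have hγ : ∀ n, γ (n + 1) = top (γ n) := fun n => rfl
  have hmono : StrictMono γ := strictMono_nat_of_lt_succ fun n => by rw [hγ]; exact htop _
  let b : ℕ → (ι →₀ ℤ) := fun n => bb (γ n)
  have hb1 : ∀ n, (↑(b n).support : Set ι) ⊆ Iic (γ (n+1)) := fun n => hsub _
  have hb2 : ∀ n, b n (γ (n+1)) ≠ 0 := fun n => hne _
  refine ⟨Set.range (fun n : (ℤ × ℤ) × ℕ => n.1.1 • b 0 + n.1.2 • b (n.2 + 1)), ?_,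
    Set.countable_range _, ?_⟩
  · rintro _ ⟨n, rfl⟩
    exact B.add_mem (B.zsmul_mem (hbbB _) _) (B.zsmul_mem (hbbB _) _)
  rw [dense_iff_inter_open]
  rintro U hU ⟨v, hv⟩
  obtain ⟨I, u, hu, hIu⟩ := isOpen_pi_iff.1 hU v hv
  let P : ι ⊕ Bool → Prop := fun j => ∃ δ, j = Sum.inl δ ∧ ∃ n, δ ≤ γ n
  let F : Finset (ι ⊕ Bool) := I.filter (fun j => ¬ P j)
  obtain ⟨s, hs⟩ := ht F (fun j => if j ∈ I then u j else univ)
    (by intro j; split_ifs with h; exacts [(hu j h).1, isOpen_univ])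
    (by intro j; split_ifs with h; exacts [⟨_, (hu j h).2⟩, ⟨0, trivial⟩])
  let W : Set ℝ := {x | ∀ j ∈ F, e (t j * x) ∈ u j}
  have hWo : IsOpen W := by
    have : W = ⋂ j ∈ F, (fun x => e (t j * x)) ⁻¹' u j := by ext; simp [W]
    rw [this]
    refine isOpen_biInter_finset fun j hj => ?_
    exact (hu j (Finset.mem_filter.1 hj).1).1.preimage
      (continuous_e.comp (continuous_const.mul continuous_id))
  have hsW : s ∈ W := by
    intro j hj
    have := hs j hj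
    rwa [if_pos (Finset.mem_filter.1 hj).1] at this
  -- choose m
  have hm : ∃ m : ℕ, ∀ δ, Sum.inl δ ∈ I → (∃ n, δ ≤ γ n) → δ ≤ γ m := by
    have h3 : ∀ j : ι ⊕ Bool, ∃ n : ℕ, P j → ∃ δ, j = Sum.inl δ ∧ δ ≤ γ n := by
      intro j
      by_cases h : P j
      · obtain ⟨δ, rfl, n, hn⟩ := h
        exact ⟨n, fun _ => ⟨δ, rfl, hn⟩⟩
      · exact ⟨0, fun h' => absurd h' h⟩
    choose N hN using h3
    refine ⟨I.sup N, fun δ hδ hP => ?_⟩
    obtain ⟨δ', h4, h5⟩ := hN (Sum.inl δ) ⟨δ, rfl, hP⟩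
    have h6 : δ' = δ := (Sum.inl_injective h4).symm
    subst h6
    exact h5.trans (hmono.monotone (Finset.le_sup hδ))
  obtain ⟨m, hm⟩ := hm
  set β := γ (m + 1 + 1) with hβ
  have hOo : IsOpen {y : Iic β → T | ∀ δ : Iic β, Sum.inl (δ : ι) ∈ I →
      y δ ∈ u (Sum.inl (δ : ι))} := by
    have h7 : {y : Iic β → T | ∀ δ : Iic β, Sum.inl (δ : ι) ∈ I → y δ ∈ u (Sum.inl (δ : ι))} =
        Set.pi {δ : Iic β | Sum.inl (δ : ι) ∈ I} (fun δ => u (Sum.inl (δ : ι))) := by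
      ext y; simp [Set.mem_pi]
    rw [h7]
    refine isOpen_set_pi ?_ (fun δ hδ => (hu _ hδ).1)
    refine Set.Finite.of_injOn (f := fun δ : Iic β => (Sum.inl (δ : ι) : ι ⊕ Bool))
      (t := (↑I : Set (ι ⊕ Bool))) ?_ ?_ (Finset.finite_toSet I)
    · intro δ hδ; exact hδ
    · intro δ _ δ' _ h; exact Subtype.ext (Sum.inl_injective h)
  have hdense := hg.dense (b 0) (b (m + 1)) β
    (fun x hx => lt_of_le_of_lt (hb1 0 hx) (hmono (show 0 + 1 < m + 1 + 1 by omega)))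
    (hb1 (m+1)) (hb2 (m+1)) (hg.phi_ne _ (by
      intro h0
      have := hb2 0
      rw [h0] at this
      exact this rfl))
  obtain ⟨p, ⟨hp1, hp2⟩, ⟨n, hn⟩⟩ := hdense.inter_open_nonempty (W ×ˢ {y : Iic β → T |
    ∀ δ : Iic β, Sum.inl (δ : ι) ∈ I → y δ ∈ u (Sum.inl (δ : ι))}) (hWo.prod hOo)
    ⟨(s, fun δ => v (Sum.inl δ)), hsW, fun δ hδ => (hu _ hδ).2⟩
  subst hn
  set a := n.1 • b 0 + n.2 • b (m + 1) with ha
  refine ⟨Phi t g a, hIu ?_, ⟨a, ⟨(n, m), rfl⟩, rfl⟩⟩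
  have hsupp : (↑a.support : Set ι) ⊆ Iic β := by
    intro x hx
    by_contra hxβ
    have hxβ' : β < x := not_le.1 hxβ
    have h8 : b 0 x = 0 := by
      by_contra h
      have := hb1 0 (Finsupp.mem_support_iff.2 h)
      exact absurd (hxβ'.trans_le this) (not_lt.2 (hmono.monotone (show 0 + 1 ≤ m + 1 + 1 by omega)))
    have h9 : b (m+1) x = 0 := by
      by_contra h
      have := hb1 (m+1) (Finsupp.mem_support_iff.2 h)
      exact absurd hxβ' (not_lt.2 this)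
    have : a x = 0 := by
      rw [ha]
      simp [h8, h9]
    exact (Finsupp.mem_support_iff.1 hx) this
  intro j hj
  by_cases hP : P j
  · obtain ⟨δ, rfl, hδ⟩ := hP
    have h10 : δ ≤ β := (hm δ hj hδ).trans (hmono.monotone (show m ≤ m + 1 + 1 by omega))
    exact hp2 ⟨δ, h10⟩ hj
  · have hjF : j ∈ F := Finset.mem_filter.2 ⟨hj, hP⟩
    have h11 : e (t j * phi g a) ∈ u j := hp1 j hjF
    rcases j with δ | i
    · rw [Phi_inl, chi_above (t := fun δ => t (Sum.inl δ))]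
      · exact h11
      · intro x hx
        have h12 : β < δ := by
          by_contra h
          exact hP ⟨δ, rfl, m + 1 + 1, not_lt.1 h⟩
        exact lt_of_le_of_lt (hsupp hx) h12
    · exact h11

end sub

end Pool.Agent.H19.SSep
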