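import Mathlib
import Pool.Agent.H19.SSepD

namespace Pool.Agent.H19.SSep

open Set Filter Topology TopologicalSpace

/-- the additive form of the main result -/
theorem main_add : ∃ (H : Type) (_ : AddCommGroup H) (_ : TopologicalSpace H)
    (_ : IsTopologicalAddGroup H) (_ : T2Space H),
    (∀ K : AddSubgroup H, SeparableSpace K) ∧
    ∃ L : AddSubgroup (ℝ × H), IsClosed (L : Set (ℝ × H)) ∧ ¬ SeparableSpace L := by
  classical
  let ι : Type := (Cardinal.aleph 1).ord.ToType
  have hcard : Cardinal.mk ι = Cardinal.aleph 1 := Cardinal.mk_ord_toType _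
  have hc : ∀ β : ι, (Iic β).Countable := by
    intro β
    have h1 : (Iio β).Countable := by
      have := Cardinal.mk_Iio_toType_ord_lt β
      rw [← Cardinal.le_aleph0_iff_set_countable]
      have h2 : Cardinal.mk ↑(Iio β) < Order.succ Cardinal.aleph0 :=
        this.trans_eq Cardinal.succ_aleph0.symm
      exact Order.lt_succ_iff.1 h2
    rw [← Iio_insert]
    exact h1.insert β
  have hι : Uncountable ι := by
    rw [← Cardinal.aleph0_lt_mk_iff, hcard, ← Cardinal.succ_aleph0]
    exact Order.lt_succ _
  obtain ⟨t, ht⟩ := exists_params (ι ⊕ Bool) (by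
    rw [Cardinal.mk_sum, hcard]
    simp
    rw [Cardinal.add_eq_left]
    · exact Cardinal.aleph0_le_aleph 1
    · exact (Cardinal.nat_lt_aleph0 2).le.trans (Cardinal.aleph0_le_aleph 1))
  obtain ⟨g, hg⟩ := exists_g hc (fun δ => t (Sum.inl δ))
  have hg : Good (fun δ => t (Sum.inl δ)) g := hg
  let H : Type := (Phi t g).range
  refine ⟨H, inferInstance, inferInstance, inferInstance, inferInstance, ?_, ?_⟩
  · intro K
    let B : AddSubgroup (ι →₀ ℤ) := K.comap (Phi t g).rangeRestrict
    by_cases hB : (B : Set (ι →₀ ℤ)).Countable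
    · have h1 : (K : Set H) = (Phi t g).rangeRestrict '' (B : Set (ι →₀ ℤ)) := by
        ext x
        constructor
        · intro hx
          obtain ⟨a, ha⟩ := (Phi t g).rangeRestrict_surjective x
          refine ⟨a, ?_, ha⟩
          show (Phi t g).rangeRestrict a ∈ K
          rw [ha]; exact hx
        · rintro ⟨a, ha, rfl⟩
          exact ha
      have h2 : (K : Set H).Countable := by
        rw [h1]; exact hB.image _
      haveI : Countable K := h2.to_subtype
      infer_instance
    · obtain ⟨D, hDB, hDc, hDd⟩ := exists_dense_countable hc hι t ht g hg B hB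
      refine ⟨⟨{k : K | ∃ d ∈ D, (Phi t g) d = ((k : H) : ι ⊕ Bool → T)}, ?_, ?_⟩⟩
      · have hmaps : Set.MapsTo (fun k : K => ((k : H) : ι ⊕ Bool → T))
            {k : K | ∃ d ∈ D, (Phi t g) d = ((k : H) : ι ⊕ Bool → T)} (Phi t g '' D) := by
          rintro k ⟨d, hd, hdk⟩
          exact ⟨d, hd, hdk⟩
        refine hmaps.countable_of_injOn ?_ (hDc.image (Phi t g))
        intro k _ k' _ h
        exact Subtype.ext (Subtype.ext h)
      · rw [dense_iff_inter_open]
        rintro U hU ⟨k, hk⟩
        obtain ⟨U', hU', rfl⟩ := isOpen_induced_iff.1 hU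
        obtain ⟨U'', hU'', rfl⟩ := isOpen_induced_iff.1 hU'
        obtain ⟨_, hdU, ⟨d, hd, rfl⟩⟩ := hDd.inter_open_nonempty U'' hU'' ⟨_, hk⟩
        exact ⟨⟨(Phi t g).rangeRestrict d, hDB hd⟩, hdU, ⟨d, hd, rfl⟩⟩
  · let φ : (ι →₀ ℤ) →+ ℝ := phiHom g
    let L : AddSubgroup (ℝ × H) := (φ.prod (Phi t g).rangeRestrict).range
    refine ⟨L, ?_, ?_⟩
    · have h1 : (L : Set (ℝ × H)) = ⋂ i : Bool, {p : ℝ × H | e (t (Sum.inr i) * p.1) =
          (p.2 : ι ⊕ Bool → T) (Sum.inr i)} := by
        ext p
        simp only [mem_iInter, mem_ofPred_eq]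
        constructor
        · rintro ⟨a, rfl⟩ i
          rfl
        · intro hp
          obtain ⟨s, ⟨_, a, rfl⟩⟩ := p
          refine ⟨a, ?_⟩
          have h2 : ∀ i : Bool, e (t (Sum.inr i) * (s - phi g a)) = 0 := by
            intro i
            have h3 : e (t (Sum.inr i) * s) = e (t (Sum.inr i) * phi g a) := hp i
            have h4 : t (Sum.inr i) * s = t (Sum.inr i) * (s - phi g a) +
              t (Sum.inr i) * phi g a := by ring
            rw [h4, e_add] at h3
            exact add_eq_right.1 h3
          have h5 := incomm t ht (Sum.inr false) (Sum.inr true) (by simp) _ (h2 false) (h2 true)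
          have h6 : phi g a = s := by linarith
          exact Prod.ext h6 rfl
      rw [h1]
      refine isClosed_iInter fun i => isClosed_eq ?_ ?_
      · exact continuous_e.comp (continuous_const.mul continuous_fst)
      · exact (continuous_apply _).comp (continuous_subtype_val.comp continuous_snd)
    · intro hsep
      obtain ⟨D, hDc, hDd⟩ := hsep.exists_countable_dense
      -- choose preimages
      have h1 : ∀ x : L, ∃ a : ι →₀ ℤ, (φ.prod (Phi t g).rangeRestrict) a = x := fun x => x.2
      choose pre hpre using h1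
      let o : ι := Classical.arbitrary ι
      have h2 : ((⋃ x ∈ D, ⋃ c ∈ (pre x).support, Iic c) ∪ Iic o).Countable := by
        refine Set.Countable.union ?_ (hc o)
        refine hDc.biUnion fun x _ => ?_
        exact (Finset.countable_toSet _).biUnion fun c _ => hc c
      obtain ⟨γ, hγ⟩ : ∃ γ, γ ∉ ((⋃ x ∈ D, ⋃ c ∈ (pre x).support, Iic c) ∪ Iic o) := by
        by_contra h
        push Not at h
        have : (univ : Set ι).Countable := h2.mono fun x _ => h x
        exact Set.not_countable_univ this
      rw [mem_union, not_or] at hγ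
      obtain ⟨hγ1, hγ2⟩ := hγ
      have hoγ : o < γ := not_le.1 hγ2
      have hsupp : ∀ x ∈ D, (↑(pre x).support : Set ι) ⊆ Iio γ := by
        intro x hx c hcx
        by_contra hcγ
        apply hγ1
        simp only [mem_iUnion]
        have h5 : γ ≤ c := not_lt.1 (fun h => hcγ h)
        exact ⟨x, hx, c, hcx, h5⟩
      -- closed condition
      let C : Set L := {x : L | e (t (Sum.inl γ) * (x : ℝ × H).1) =
        ((x : ℝ × H).2 : ι ⊕ Bool → T) (Sum.inl γ)}
      have hC : IsClosed C := by
        refine isClosed_eq ?_ ?_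
        · exact continuous_e.comp (continuous_const.mul (continuous_fst.comp continuous_subtype_val))
        · exact (continuous_apply _).comp (continuous_subtype_val.comp
            (continuous_snd.comp continuous_subtype_val))
      have hDC : D ⊆ C := by
        intro x hx
        have h3 := hpre x
        show e (t (Sum.inl γ) * (x : ℝ × H).1) = ((x : ℝ × H).2 : ι ⊕ Bool → T) (Sum.inl γ)
        rw [← h3]
        show e (t (Sum.inl γ) * phi g (pre x)) = Phi t g (pre x) (Sum.inl γ)
        rw [Phi_inl, chi_above (t := fun δ => t (Sum.inl δ)) (hsupp x hx)]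
      have hall : ∀ x : L, x ∈ C := by
        intro x
        have := hC.closure_subset_iff.2 hDC
        exact this (hDd x)
      -- hence all elements of the group satisfy the relation
      have hrel : ∀ a : ι →₀ ℤ, e (t (Sum.inl γ) * phi g a) =
          chi (fun δ => t (Sum.inl δ)) g γ a := fun a => hall ⟨_, ⟨a, rfl⟩⟩
      -- contradiction with density at stage γ
      have ho1 : (↑(Finsupp.single o (1 : ℤ)).support : Set ι) ⊆ Iio γ := by
        intro x hx
        rw [Finsupp.support_single o one_ne_zero] at hx
        have : x = o := by simpa using hx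
        rw [this]; exact hoγ
      have ho2 : (↑(Finsupp.single γ (1 : ℤ)).support : Set ι) ⊆ Iic γ := by
        intro x hx
        rw [Finsupp.support_single γ one_ne_zero] at hx
        have : x = γ := by simpa using hx
        rw [this]; exact self_mem_Iic
      have hd := hg.dense (Finsupp.single o 1) (Finsupp.single γ 1) γ ho1 ho2 (by simp)
        (hg.phi_ne _ (by simp))
      have hcl : IsClosed {p : ℝ × (Iic γ → T) | e (t (Sum.inl γ) * p.1) = p.2 ⟨γ, self_mem_Iic⟩} := by
        refine isClosed_eq ?_ ?_
        · exact continuous_e.comp (continuous_const.mul continuous_fst)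
        · exact (continuous_apply _).comp continuous_snd
      have hsub7 : (Set.range fun n : ℤ × ℤ =>
        ((phi g (n.1 • Finsupp.single o (1 : ℤ) + n.2 • Finsupp.single γ (1 : ℤ)),
          fun δ : Iic γ => chi (fun δ => t (Sum.inl δ)) g δ
            (n.1 • Finsupp.single o (1 : ℤ) + n.2 • Finsupp.single γ (1 : ℤ))) :
          ℝ × (Iic γ → T))) ⊆ {p : ℝ × (Iic γ → T) | e (t (Sum.inl γ) * p.1) =
            p.2 ⟨γ, self_mem_Iic⟩} := by
        rintro _ ⟨n, rfl⟩
        exact hrel _
      have h7 := hcl.closure_subset_iff.2 hsub7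
      have h8 := h7 (hd ((0 : ℝ), fun _ : Iic γ => e (1/2)))
      have h9 : e (t (Sum.inl γ) * 0) = e (1/2) := h8
      rw [mul_zero] at h9
      have h10 : e 0 = 0 := by simpa using e_int 0
      rw [h10] at h9
      exact e_half_ne h9.symm

end Pool.Agent.H19.SSep
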