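import Mathlib
import Pool.Agent.H19.SSepE

namespace Pool.Agent.H19.SSep

open TopologicalSpace

/-- multiplicative form of the main result -/
theorem main_mul : ∃ (H : Type) (_ : CommGroup H) (_ : TopologicalSpace H)
    (_ : IsTopologicalGroup H) (_ : T2Space H),
    (∀ K : Subgroup H, SeparableSpace K) ∧
    ∃ L : Subgroup (Multiplicative ℝ × H), IsClosed (L : Set (Multiplicative ℝ × H)) ∧
      ¬ SeparableSpace L := by
  obtain ⟨H, _, _, _, _, hK, L, hL, hLs⟩ := main_add
  have hT2 : T2Space (Multiplicative H) :=
    T2Space.of_injective_continuous (f := fun x : Multiplicative H => Multiplicative.toAdd x)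
      Multiplicative.toAdd.injective continuous_toAdd
  refine ⟨Multiplicative H, inferInstance, inferInstance, inferInstance, hT2, ?_, ?_⟩
  · intro K
    have := hK (Subgroup.toAddSubgroup' K)
    let f : (Subgroup.toAddSubgroup' K) → K := fun x => ⟨Multiplicative.ofAdd (x : H), x.2⟩
    have hf : Continuous f :=
      Continuous.subtype_mk (continuous_ofAdd.comp continuous_subtype_val) _
    have hfs : Function.Surjective f := fun y => ⟨⟨Multiplicative.toAdd (y : Multiplicative H), y.2⟩, rfl⟩
    exact hfs.denseRange.separableSpace hf
  · let L' : Subgroup (Multiplicative ℝ × Multiplicative H) :=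
      { carrier := {p | (Multiplicative.toAdd p.1, Multiplicative.toAdd p.2) ∈ L}
        mul_mem' := fun {a b} ha hb => L.add_mem ha hb
        one_mem' := L.zero_mem
        inv_mem' := fun {a} ha => L.neg_mem ha }
    have hcont : Continuous (fun p : Multiplicative ℝ × Multiplicative H =>
        ((Multiplicative.toAdd p.1, Multiplicative.toAdd p.2) : ℝ × H)) :=
      (continuous_toAdd.comp continuous_fst).prodMk (continuous_toAdd.comp continuous_snd)
    refine ⟨L', hL.preimage hcont, fun hsep => hLs ?_⟩
    let f : L' → L := fun x => ⟨(Multiplicative.toAdd (x : Multiplicative ℝ × Multiplicative H).1,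
      Multiplicative.toAdd (x : Multiplicative ℝ × Multiplicative H).2), x.2⟩
    have hf : Continuous f := Continuous.subtype_mk (hcont.comp continuous_subtype_val) _
    have hfs : Function.Surjective f := fun y =>
      ⟨⟨(Multiplicative.ofAdd (y : ℝ × H).1, Multiplicative.ofAdd (y : ℝ × H).2), y.2⟩, rfl⟩
    exact hfs.denseRange.separableSpace hf

end Pool.Agent.H19.SSep
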